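import Mathlib
import Pool.Agent.TH796.AL.TwoB

/-!
# Project FR: words of finite rank at all scales in multiplicatively independent bases
Definitions and the independent modules, as propositions.
-/

set_option autoImplicit false
set_option linter.all false

namespace Pool.Agent.L0h79.FR

open Filter Topology Pool.Agent.TH932.Abs Pool.Agent.TH932.Germs Pool.Agent.TH932.Chi
open Pool.Agent.TH796.AL Pool.Agent.TH932.Words Pool.Agent.TH796.AL.TwoB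

/-! ## words -/

/-- The word `w` has finite rank at all scales: for every scale `N` there are `k` words of length at
most `C N` such that, for every `E`, a prefix of `w` of length at least `E N` is a product of
boundedly many (at most `M = M(E)`) of these words. -/
def FinRank {α : Type} (w : ℕ → α) (k C : ℕ) : Prop :=
  ∃ W : ℕ → Fin k → List α, (∀ N j, (W N j).length ≤ C * N) ∧
    ∀ E : ℕ, ∃ M N₀ : ℕ, ∀ N ≥ N₀, ∃ l : List (Fin k), l.length ≤ M ∧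
      E * N ≤ (l.flatMap (W N)).length ∧
      ∀ i, ∀ hi : i < (l.flatMap (W N)).length, (l.flatMap (W N))[i] = w i

/-- iterates of a substitution on words -/
def sub {α : Type} (σ : α → List α) : ℕ → List α → List α
  | 0, u => u
  | n + 1, u => sub σ n (u.flatMap σ)

/-- `u` is the limit of the words `σ^n(a)`, whose lengths tend to infinity -/
def Fixed {α : Type} (σ : α → List α) (a : α) (u : ℕ → α) : Prop :=
  (∀ n i, ∀ hi : i < (sub σ n [a]).length, (sub σ n [a])[i] = u i) ∧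
  Tendsto (fun n => (sub σ n [a]).length) atTop atTop

/-- M9 (GROW): if the lengths of `σ^n(a)` are not bounded by a polynomial then they are doubled after
`p` steps. -/
def S_GROW : Prop := ∀ (α : Type) (_ : Finite α) (σ : α → List α) (a : α),
  (∀ K : ℕ, ∃ n : ℕ, K * (n + 1) ^ K < (sub σ n [a]).length) →
  ∃ p n₀ : ℕ, ∀ n ≥ n₀, 2 * (sub σ n [a]).length ≤ (sub σ (n + p) [a]).length

/-- M8 (MORPH): fixed points of substitutions with doubling lengths have finite rank. -/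
def S_MORPH : Prop := ∀ (α : Type) (_ : Finite α) (σ : α → List α) (a : α) (u : ℕ → α),
  Fixed σ a u → (∃ p n₀ : ℕ, ∀ n ≥ n₀, 2 * (sub σ n [a]).length ≤ (sub σ (n + p) [a]).length) →
  ∃ k C : ℕ, FinRank u k C

/-- number of paths of length `n` starting in `c` which avoid `R` -/
noncomputable def paths {α : Type} (σ : α → List α) (R : Set α) : ℕ → α → ℕ
  | 0, c => by classical exact if c ∈ R then 0 else 1
  | n + 1, c => by classical exact if c ∈ R then 0 else ((σ c).map (paths σ R n)).sum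

/-- M9a (TPOLY): the number of paths avoiding the letters which reproduce twice is polynomial. -/
def S_TPOLY : Prop := ∀ (α : Type) (_ : Finite α) [DecidableEq α] (σ : α → List α) (R : Set α),
  (∀ e, e ∉ R → ∀ j, (sub σ (j + 1) [e]).count e ≤ 1) →
  ∃ K : ℕ, ∀ n c, paths σ R n c ≤ K * (n + 1) ^ K

/-- value of a word in base `b` -/
noncomputable def val {α : Type} (b : ℕ) (τ : α → ℚ) : List α → ℚ
  | [] => 0
  | c :: u => (τ c + val b τ u) / b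

/-! ## germs -/

variable {m : ℕ}

/-- the characters of `f` have all valuations at most `c` in absolute value -/
def Bdd (B : Base m) {L : ℕ → ℝ} {hL : Tendsto L atTop atTop} (c : ℝ) (f : Rg m hL) : Prop :=
  ∀ g, f.coeff g ≠ 0 → ∀ v, |lv B v g| ≤ c

/-- M1 (KPQ): the key proposition `KPAStmt` with its explicit constant. -/
def S_KPQ : Prop := ∀ (m : ℕ) (B : Base m) (L : ℕ → ℝ) (hL : Tendsto L atTop atTop)
  (F : IntermediateField ℚ ℝ) (_ : FiniteDimensional ℚ F) (J : Type) (_ : Fintype J) (ζ : J → GG)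
  (C : ℝ) (_ : 0 ≤ C)
  (_ : ∀ A : J → Rg m hL, ∑ j, ev B hL (A j) * ζ j = 0 → ∀ j, A j = 0)
  (_ : ∀ v j, ζ j ∈ Sv B L v (-C)) (_ : ∀ j, Sint B L (ζ j))
  (A : J → RgA F m hL) (x : ℝ), ∑ j, evA F B hL (A j) * rho (ζ j) ∈ SR L x →
  ∀ j g, (A j).coeff g ≠ 0 → x ≤ lv B none g + 2 * (m + 1) * C * Fintype.card J

/-- M2 (PRIM): vectors over the group ring of `ℝ^m` are multiples of primitive ones over the group
ring of a lattice. -/
def S_PRIM : Prop := ∀ (K : Type) [Field K] (m : ℕ) (I : Type) [Fintype I]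
  (a : I → AddMonoidAlgebra K (Fin m → ℝ)), (∃ i, a i ≠ 0) →
  ∃ (d : ℕ) (φ : (Fin d → ℤ) →+ (Fin m → ℝ)), Function.Injective φ ∧
    ∃ b : I → AddMonoidAlgebra K (Fin d → ℤ),
      (∃ G : AddMonoidAlgebra K (Fin d → ℤ), G ≠ 0 ∧
        ∀ i, a i = AddMonoidAlgebra.mapDomainRingHom K φ (G * b i)) ∧
      ∀ c : I → AddMonoidAlgebra K (Fin d → ℤ), (∀ i j, c i * b j = c j * b i) →
        ∃ Q : AddMonoidAlgebra K (Fin d → ℤ), ∀ i, c i = Q * b i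

/-- M2a (LAT): finitely many elements of the group ring of `ℝ^m` come from a lattice. -/
def S_LAT : Prop := ∀ (K : Type) [Field K] (m : ℕ) (I : Type) [Fintype I]
  (a : I → AddMonoidAlgebra K (Fin m → ℝ)),
  ∃ (d : ℕ) (φ : (Fin d → ℤ) →+ (Fin m → ℝ)), Function.Injective φ ∧
    ∃ a' : I → AddMonoidAlgebra K (Fin d → ℤ),
      ∀ i, a i = AddMonoidAlgebra.mapDomainRingHom K φ (a' i)

/-- M2b (GCD): primitive vectors over the ring of Laurent polynomials. -/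
def S_GCD : Prop := ∀ (K : Type) [Field K] (d : ℕ) (I : Type) [Fintype I]
  (a : I → AddMonoidAlgebra K (Fin d → ℤ)), (∃ i, a i ≠ 0) →
  ∃ (G : AddMonoidAlgebra K (Fin d → ℤ)) (b : I → AddMonoidAlgebra K (Fin d → ℤ)), G ≠ 0 ∧
    (∀ i, a i = G * b i) ∧
    ∀ c : I → AddMonoidAlgebra K (Fin d → ℤ), (∀ i j, c i * b j = c j * b i) →
      ∃ Q : AddMonoidAlgebra K (Fin d → ℤ), ∀ i, c i = Q * b i

/-- M4a (LINK): linear algebra for `S_HGT`. The relations between the elements `x n i`, `n ∈ W`, are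
the multiples `Q b` with `Q` supported in `Ω`; if `γ` is a vertex of the support of `b i₀`, then the
elements `x n i` with `¬ (i = i₀ ∧ n - γ ∈ Ω)` form a basis of their span. -/
def S_LINK : Prop := ∀ (K : Type) [Field K] (G : Type) [AddCommGroup G] [Module K G] (d : ℕ)
  (I : Type) [Fintype I] [DecidableEq I] (b : I → AddMonoidAlgebra K (Fin d → ℤ))
  (W Ω : Finset (Fin d → ℤ)) (x : (Fin d → ℤ) → I → G)
  (_ : ∀ Q : AddMonoidAlgebra K (Fin d → ℤ), (∀ n, Q.coeff n ≠ 0 → n ∈ Ω) →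
    ∀ i n, (Q * b i).coeff n ≠ 0 → n ∈ W)
  (_ : ∀ Q : AddMonoidAlgebra K (Fin d → ℤ), (∀ n, Q.coeff n ≠ 0 → n ∈ Ω) →
    ∑ i, ∑ n ∈ W, (Q * b i).coeff n • x n i = 0)
  (_ : ∀ c : I → AddMonoidAlgebra K (Fin d → ℤ), (∀ i n, (c i).coeff n ≠ 0 → n ∈ W) →
    ∑ i, ∑ n ∈ W, (c i).coeff n • x n i = 0 →
    ∃ Q : AddMonoidAlgebra K (Fin d → ℤ), (∀ n, Q.coeff n ≠ 0 → n ∈ Ω) ∧ ∀ i, c i = Q * b i)
  (i₀ : I) (γ : Fin d → ℤ) (_ : (b i₀).coeff γ ≠ 0)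
  (_ : ∀ S : Finset (Fin d → ℤ), S.Nonempty → ∃ s ∈ S, UniqueAdd S (b i₀).coeff.support s γ),
  ((W ×ˢ (Finset.univ : Finset I)).filter fun p => ¬ (p.2 = i₀ ∧ p.1 - γ ∈ Ω)).card + Ω.card
    = W.card * Fintype.card I ∧
  LinearIndependent K (fun p : ((W ×ˢ (Finset.univ : Finset I)).filter fun p =>
    ¬ (p.2 = i₀ ∧ p.1 - γ ∈ Ω) : Finset ((Fin d → ℤ) × I)) => x p.1.1 p.1.2) ∧
  ∀ n ∈ W, ∀ i, x n i ∈ Submodule.span K (Set.range
    (fun p : ((W ×ˢ (Finset.univ : Finset I)).filter fun p =>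
      ¬ (p.2 = i₀ ∧ p.1 - γ ∈ Ω) : Finset ((Fin d → ℤ) × I)) => x p.1.1 p.1.2))

/-- M3 (NEWT): supports of multiples. -/
def S_NEWT : Prop := ∀ (K : Type) [Field K] (d : ℕ) (I : Type) [Fintype I]
  (b : I → AddMonoidAlgebra K (Fin d → ℤ)) (hi : Fin d → ℤ),
  (∀ i n, (b i).coeff n ≠ 0 → ∀ t, 0 ≤ n t ∧ n t ≤ hi t) →
  (∀ t, ∃ i n, (b i).coeff n ≠ 0 ∧ n t = 0) →
  (∀ t, ∃ i n, (b i).coeff n ≠ 0 ∧ n t = hi t) →
  ∀ (Q : AddMonoidAlgebra K (Fin d → ℤ)) (R : ℤ),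
  (∀ i n, (Q * b i).coeff n ≠ 0 → ∀ t, 0 ≤ n t ∧ n t < R + hi t) →
  ∀ n, Q.coeff n ≠ 0 → ∀ t, 0 ≤ n t ∧ n t < R

/-- M4 (HGT): the height of a primitive relation between germs. `b` is a primitive relation between
the germs `ξ i`, all the relations over the lattice are its multiples. -/
def S_HGT : Prop := ∀ (m : ℕ) (B : Base m) (L : ℕ → ℝ) (hL : Tendsto L atTop atTop) (I : Type)
  (_ : Fintype I) (ξ : I → GG) (C : ℝ) (_ : 0 ≤ C) (_ : ∀ v i, ξ i ∈ Sv B L v (-C))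
  (_ : ∀ i, Sint B L (ξ i)) (d : ℕ) (φ : (Fin d → ℤ) →+ (Fin m → ℝ)) (_ : Function.Injective φ)
  (b : I → AddMonoidAlgebra (KK L hL) (Fin d → ℤ)) (_ : ∃ i, b i ≠ 0)
  (_ : ∑ i, ev B hL (AddMonoidAlgebra.mapDomainRingHom (KK L hL) φ (b i)) * ξ i = 0)
  (_ : ∀ c : I → AddMonoidAlgebra (KK L hL) (Fin d → ℤ),
    ∑ i, ev B hL (AddMonoidAlgebra.mapDomainRingHom (KK L hL) φ (c i)) * ξ i = 0 →
    ∃ Q : AddMonoidAlgebra (KK L hL) (Fin d → ℤ), ∀ i, c i = Q * b i)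
  (μ : Option (Fin m) → ℝ)
  (_ : ∀ v, ∃ i n, (b i).coeff n ≠ 0 ∧ μ v = lv B v (φ n))
  (_ : ∀ v i n, (b i).coeff n ≠ 0 → μ v ≤ lv B v (φ n)),
  -∑ v, μ v ≤ 2 * (m + 1) * C * Fintype.card I

/-- M5 (REL): quantitative relations. -/
def S_REL : Prop := ∀ (m : ℕ) (B : Base m) (L : ℕ → ℝ) (hL : Tendsto L atTop atTop) (J : Type)
  (_ : Fintype J) (ζ : J → GG) (z : GG) (C : ℝ) (_ : 0 ≤ C)
  (_ : ∀ A : J → Rg m hL, ∑ j, ev B hL (A j) * ζ j = 0 → ∀ j, A j = 0)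
  (_ : ∃ (D : Rg m hL) (H : J → Rg m hL), D ≠ 0 ∧ ev B hL D * z = ∑ j, ev B hL (H j) * ζ j)
  (_ : ∀ v j, ζ j ∈ Sv B L v (-C)) (_ : ∀ v, z ∈ Sv B L v (-C))
  (_ : ∀ j, Sint B L (ζ j)) (_ : Sint B L z),
  ∃ (D : Rg m hL) (H : J → Rg m hL), D ≠ 0 ∧ ev B hL D * z = ∑ j, ev B hL (H j) * ζ j ∧
    Bdd B (2 * (m + 1) * C * (Fintype.card J + 1)) D ∧
    ∀ j, Bdd B (2 * (m + 1) * C * (Fintype.card J + 1)) (H j)

/-- M6 (IND): a maximal independent subfamily with bounded relations. -/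
def S_IND : Prop := ∀ (m : ℕ) (B : Base m) (L : ℕ → ℝ) (hL : Tendsto L atTop atTop) (Z : Type)
  (_ : Fintype Z) (z : Z → GG) (C : ℝ) (_ : 0 ≤ C) (_ : ∀ v j, z j ∈ Sv B L v (-C))
  (_ : ∀ j, Sint B L (z j)),
  ∃ (J : Type) (_ : Fintype J) (f : J → Z) (D : Rg m hL) (H : Z → J → Rg m hL),
    Fintype.card J ≤ Fintype.card Z ∧
    (∀ A : J → Rg m hL, ∑ j, ev B hL (A j) * z (f j) = 0 → ∀ j, A j = 0) ∧ D ≠ 0 ∧
    (∀ i, ev B hL D * z i = ∑ j, ev B hL (H i j) * z (f j)) ∧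
    Bdd B (2 * (m + 1) * C * (Fintype.card Z + 1) ^ 2) D ∧
    ∀ i j, Bdd B (2 * (m + 1) * C * (Fintype.card Z + 1) ^ 2) (H i j)

/-- The real number `x` is approximated, with the precision `exp (-E L)`, by a combination of `r`
germs with valuations at least `-C`, with characters in `V`. -/
def Dat (B : Base m) {L : ℕ → ℝ} (hL : Tendsto L atTop atTop) (V : Submodule ℝ (Fin m → ℝ))
    (C : ℝ) (r : ℕ) (E x : ℝ) : Prop :=
  ∃ (Z : Type) (_ : Fintype Z) (z : Z → GG), Fintype.card Z ≤ r ∧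
    (∀ v j, z j ∈ Sv B L v (-C)) ∧ (∀ j, z j ∈ SS L (RS B) (-C)) ∧
    ∃ (P : Z → Rg m hL) (s : ℕ → ℚ), (∀ j g, (P j).coeff g ≠ 0 → g ∈ V) ∧
      gm s = ∑ j, ev B hL (P j) * z j ∧
      ∀ᶠ n in (UU : Filter ℕ), |x - s n| ≤ Real.exp (-(E * L n))

/-- M7a (TUBE): tubes with trivial intersection meet in a bounded set. -/
def S_TUBE : Prop := ∀ (m : ℕ) (B : Base m) (k : ℕ) (V : Fin k → Submodule ℝ (Fin m → ℝ))
  (_ : ∀ i j, i ≠ j → Disjoint (V i) (V j)), ∃ κ : ℝ, 0 ≤ κ ∧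
  ∀ (c : ℝ) (i j : Fin k), i ≠ j → ∀ v ∈ V i, ∀ w ∈ V j, ∀ a a' : Fin m → ℝ,
    (∀ u, |lv B u a| ≤ c) → (∀ u, |lv B u a'| ≤ c) → v + a = w + a' →
    ∀ u, |lv B u (v + a)| ≤ κ * c

/-- M7b (EVD): values of the ring at bounded elements. -/
def S_EVD : Prop := ∀ (m : ℕ) (B : Base m) (L : ℕ → ℝ) (hL : Tendsto L atTop atTop) (c : ℝ),
  0 ≤ c →
  (∀ g : Fin m → ℝ, (∀ u, |lv B u g| ≤ c) → ch B hL g ∈ SS L (RS B) (-c)) ∧
  ∀ D : Rg m hL, Bdd B c D → (∀ v, ev B hL D ∈ Sv B L v (-c)) ∧ ev B hL D ∈ SS L (RS B) (-c) ∧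
    (D ≠ 0 → rho (ev B hL D) ∉ SR L (c + 1))

/-- M7 (DIR): the direct theorem with explicit constants. -/
def S_DIR : Prop := ∀ (m : ℕ) (B : Base m) (k : ℕ) (V : Fin k → Submodule ℝ (Fin m → ℝ))
  (_ : ∀ i j, i ≠ j → Disjoint (V i) (V j)), ∃ κ : ℝ, 0 ≤ κ ∧
  ∀ (C : ℝ) (_ : 0 ≤ C) (r : ℕ) (L : ℕ → ℝ) (hL : Tendsto L atTop atTop) (y α : Fin k → ℝ)
    (_ : ∀ i, IsAlgebraic ℚ (α i) ∧ α i ≠ 0) (E : ℝ) (_ : ∀ i, Dat B hL (V i) C r E (y i))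
    (_ : ∑ i, α i * y i = 0) (i : Fin k),
    ∃ g : ℕ → ℚ,
      (∀ᶠ n in (UU : Filter ℕ), ((g n).den : ℝ) ≤
        Real.exp (κ * (C + 1) * ((r : ℝ) + 1) ^ 2 * L n)) ∧
      ∀ᶠ n in (UU : Filter ℕ), |y i - g n| ≤
        Real.exp (-((E - κ * (C + 1) * ((r : ℝ) + 1) ^ 2) * L n))

/-- M10 (GLUE): good rational approximations at all scales are constant. -/
def S_GLUE : Prop := ∀ (x H : ℝ), 0 ≤ H →
  (∀ N : ℕ → ℕ, (∀ n, 2 ≤ N n) → Tendsto N atTop atTop → ∃ g : ℕ → ℚ,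
    (∀ᶠ n in (UU : Filter ℕ), ((g n).den : ℝ) ≤ Real.exp (H * N n)) ∧
    ∀ᶠ n in (UU : Filter ℕ), |x - g n| ≤ Real.exp (-((2 * H + 2) * N n))) →
  ∃ q : ℚ, x = q

/-- the numbers which are uniformly represented in the base `b` -/
def UD (b : ℕ) (x : ℝ) : Prop :=
  ∀ (m : ℕ) (B : Base m) (e : Fin m → ℕ), b = ∏ i, B.P i ^ e i →
  ∃ (C : ℝ) (r : ℕ), 0 ≤ C ∧ ∀ (N : ℕ → ℕ) (_ : ∀ n, 2 ≤ N n)
    (hL : Tendsto (fun n => (N n : ℝ)) atTop atTop) (E : ℝ),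
    Dat B hL (Submodule.span ℝ {fun i => (e i : ℝ)}) C r E x

/-- M16a (VAL): the germs of the values of words. -/
def S_VAL : Prop := ∀ (b : ℕ) (_ : 2 ≤ b) (α : Type) (_ : Finite α) (τ : α → ℚ) (C : ℕ) (m : ℕ)
  (B : Base m) (e : Fin m → ℕ) (_ : b = ∏ i, B.P i ^ e i) (N : ℕ → ℕ)
  (_ : Tendsto (fun n => (N n : ℝ)) atTop atTop) (W : ℕ → List α)
  (_ : ∀ n, (W n).length ≤ C * N n),
  (∀ v, gm (fun n => val b τ (W n)) ∈ Sv B (fun n => (N n : ℝ)) v (-(C * Real.log b))) ∧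
  gm (fun n => val b τ (W n)) ∈ SS (fun n => (N n : ℝ)) (RS B) (-(C * Real.log b))

/-- M16b (SHIFT): powers of the base. -/
def S_SHIFT : Prop := ∀ (b : ℕ) (_ : 2 ≤ b) (m : ℕ) (B : Base m) (e : Fin m → ℕ)
  (_ : b = ∏ i, B.P i ^ e i) (N : ℕ → ℕ) (hL : Tendsto (fun n => (N n : ℝ)) atTop atTop)
  (S : ℕ → ℕ) (M : ℕ) (_ : ∀ᶠ n in (UU : Filter ℕ), S n ≤ M * N n),
  ∃ (κ : KK (fun n => (N n : ℝ)) hL) (t : ℝ),
    gm (fun n => ((b : ℚ) ^ S n)⁻¹) = (κ : GG) * ch B hL (fun i => -(t * e i))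

/-- M16 (CORE): the germs of a word of finite rank. -/
def S_CORE : Prop := ∀ (b : ℕ) (_ : 2 ≤ b) (α : Type) (_ : Finite α) (τ : α → ℚ) (w : ℕ → α) (x : ℝ)
  (_ : HasSum (fun n : ℕ => (τ (w n) : ℝ) / (b : ℝ) ^ (n + 1)) x) (k C : ℕ) (_ : FinRank w k C),
  ∃ C' : ℝ, 0 ≤ C' ∧ ∀ (m : ℕ) (B : Base m) (e : Fin m → ℕ) (_ : b = ∏ i, B.P i ^ e i)
    (N : ℕ → ℕ) (hL : Tendsto (fun n => (N n : ℝ)) atTop atTop), ∃ z : Fin k → GG,
    (∀ v j, z j ∈ Sv B (fun n => (N n : ℝ)) v (-C')) ∧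
    (∀ j, z j ∈ SS (fun n => (N n : ℝ)) (RS B) (-C')) ∧
    ∀ E : ℝ, ∃ (P : Fin k → Rg m hL) (s : ℕ → ℚ),
      (∀ j g, (P j).coeff g ≠ 0 → g ∈ Submodule.span ℝ {fun i => (e i : ℝ)}) ∧
      gm s = ∑ j, ev B hL (P j) * z j ∧
      ∀ᶠ n in (UU : Filter ℕ), |x - s n| ≤ Real.exp (-(E * N n))

/-- M11 (FRD): the numbers with digits of finite rank are uniformly represented. -/
def S_FRD : Prop := ∀ (b : ℕ) (_ : 2 ≤ b) (α : Type) (_ : Finite α) (τ : α → ℚ) (w : ℕ → α) (x : ℝ)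
  (_ : HasSum (fun n : ℕ => (τ (w n) : ℝ) / (b : ℝ) ^ (n + 1)) x) (k C : ℕ) (_ : FinRank w k C),
  UD b x

/-- M12 (RV): they are also represented in the sense of `RepV`. -/
def S_RV : Prop := ∀ (b : ℕ) (_ : 2 ≤ b) (α : Type) (_ : Finite α) (τ : α → ℚ) (w : ℕ → α) (x : ℝ)
  (_ : HasSum (fun n : ℕ => (τ (w n) : ℝ) / (b : ℝ) ^ (n + 1)) x) (k C : ℕ) (_ : FinRank w k C)
  (m : ℕ) (B : Base m) (e : Fin m → ℕ) (_ : b = ∏ i, B.P i ^ e i) (N : ℕ → ℕ)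
  (hL : Tendsto (fun n => (N n : ℝ)) atTop atTop),
  RepV B hL (Submodule.span ℝ {fun i => (e i : ℝ)}) x

/-- M13 (RING): the uniformly represented numbers form a `ℚ`-algebra. -/
def S_RING : Prop := ∀ (b : ℕ) (_ : 2 ≤ b),
  (∀ q : ℚ, UD b (q : ℝ)) ∧ (∀ x y : ℝ, UD b x → UD b y → UD b (x + y)) ∧
  ∀ x y : ℝ, UD b x → UD b y → UD b (x * y)

/-- M14 (BASE): a common base. -/
def S_BASE : Prop := ∀ (k : ℕ) (b : Fin k → ℕ), (∀ i, 2 ≤ b i) →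
  ∃ (m : ℕ) (B : Base m) (e : Fin k → Fin m → ℕ), ∀ l, b l = ∏ i, B.P i ^ e l i

/-- M15 (MAIN): linear independence in multiplicatively independent bases. -/
def S_MAIN : Prop := ∀ (k : ℕ) (b : Fin k → ℕ), (∀ i, 2 ≤ b i) →
  (∀ i j, i ≠ j → Indep (b i) (b j)) → ∀ (y α : Fin k → ℝ), (∀ i, UD (b i) (y i)) →
  (∀ i, IsAlgebraic ℚ (α i) ∧ α i ≠ 0) → ∑ i, α i * y i = 0 → ∀ i, ∃ q : ℚ, y i = q

end Pool.Agent.L0h79.FR
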