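import Mathlib
import Pool.Agent.L0h79.FR.Defs

/-!
# Project FR, second part: Lempel-Ziv complexity in multiplicatively independent bases
-/

set_option autoImplicit false
set_option linter.all false

namespace Pool.Agent.L0h79.FR

open Filter Topology Pool.Agent.TH932.Abs Pool.Agent.TH932.Germs Pool.Agent.TH932.Chi
open Pool.Agent.TH796.AL Pool.Agent.TH932.Words Pool.Agent.TH796.AL.TwoB

/-! ## words -/

/-- `[s, t)` is a phrase of the word `w`: it has at most one letter, or it is a copy of an earlier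
block, which starts `δ` letters before `s` (and may overlap `[s, t)`) -/
def Phrase {α : Type} (w : ℕ → α) (s t : ℕ) : Prop :=
  s ≤ t ∧ (t ≤ s + 1 ∨ ∃ δ, 1 ≤ δ ∧ δ ≤ s ∧ ∀ j, s ≤ j → j < t → w j = w (j - δ))

/-- the prefix of length `N` of `w` is covered by `r` phrases -/
def Parse {α : Type} (w : ℕ → α) (N r : ℕ) : Prop :=
  ∃ t : ℕ → ℕ, t 0 = 0 ∧ N ≤ t r ∧ ∀ i < r, Phrase w (t i) (t (i + 1))

/-- the Lempel-Ziv complexity of the prefix of length `N`: the smallest number of phrases -/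
noncomputable def LZ {α : Type} (w : ℕ → α) (N : ℕ) : ℕ := sInf {r | Parse w N r}

/-- `w` has a parsing with exponentially growing phrases -/
def ExpParse {α : Type} (w : ℕ → α) (p : ℕ) : Prop :=
  ∃ t : ℕ → ℕ, t 0 = 0 ∧ t 1 = 1 ∧ (∀ i, 2 * t i ≤ t (i + p)) ∧
    ∀ i, Phrase w (t i) (t (i + 1))

/-- LP (pigeonhole): if the Lempel-Ziv complexities of finitely many words are `O (log M)` for
infinitely many `M`, then there are large scales `N n` such that `[N n, E N n)` is covered by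
`O (1 + log E)` phrases of each of the words. -/
def S_LP : Prop := ∀ (k : ℕ) (α : Fin k → Type) (w : ∀ l, ℕ → α l) (K : ℝ)
  (_ : ∃ᶠ M in (atTop : Filter ℕ), ∀ l, (LZ (w l) M : ℝ) ≤ K * Real.log M),
  ∃ A : ℝ, 0 ≤ A ∧ ∀ E : ℕ, 2 ≤ E → ∃ (N : ℕ → ℕ) (r : ℕ) (t : Fin k → ℕ → ℕ → ℕ),
    (r : ℝ) ≤ A * (1 + Real.log E) ∧ (∀ n, 2 ≤ N n) ∧ Tendsto N atTop atTop ∧
    ∀ l n, t l n 0 = N n ∧ t l n r = E * N n ∧ ∀ i < r, Phrase (w l) (t l n i) (t l n (i + 1))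

/-- LE: the same at all scales for parsings with exponentially growing phrases. -/
def S_LE : Prop := ∀ (α : Type) (w : ℕ → α) (p : ℕ) (_ : ExpParse w p),
  ∃ A : ℝ, 0 ≤ A ∧ ∀ E : ℕ, 2 ≤ E → ∃ r : ℕ, (r : ℝ) ≤ A * (1 + Real.log E) ∧ ∀ N : ℕ, 1 ≤ N →
    ∃ t : ℕ → ℕ, t 0 = N ∧ t r = E * N ∧ ∀ i < r, Phrase w (t i) (t (i + 1))

/-! ## germs -/

/-- values of prefixes -/
noncomputable def pre {α : Type} (b : ℕ) (τ : α → ℚ) (w : ℕ → α) (s : ℕ) : ℚ :=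
  ∑ i ∈ Finset.range s, τ (w i) / (b : ℚ) ^ (i + 1)

/-- LS (small periods): a periodic run of negligible period only contributes characters. -/
def S_LS : Prop := ∀ (b : ℕ) (_ : 2 ≤ b) (α : Type) (_ : Finite α) (τ : α → ℚ) (w : ℕ → α) (m : ℕ)
  (B : Base m) (e : Fin m → ℕ) (_ : b = ∏ i, B.P i ^ e i) (N : ℕ → ℕ)
  (hL : Tendsto (fun n => (N n : ℝ)) atTop atTop) (s t δ : ℕ → ℕ) (M : ℕ)
  (_ : ∀ᶠ n in (UU : Filter ℕ), s n ≤ t n ∧ t n ≤ M * N n ∧ 1 ≤ δ n ∧ δ n ≤ s n ∧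
    ∀ j, s n ≤ j → j < t n → w j = w (j - δ n))
  (_ : ∀ ε : ℝ, 0 < ε → ∀ᶠ n in (UU : Filter ℕ), (δ n : ℝ) ≤ ε * N n),
  ∃ f : Rg m hL, (∀ g, f.coeff g ≠ 0 → g ∈ Submodule.span ℝ {fun i => (e i : ℝ)}) ∧
    gm (fun n => pre b τ w (t n)) = gm (fun n => pre b τ w (s n)) + ev B hL f

/-- LC (chain): the germ at the end of `r` phrases is a combination of `2 r + 1` germs at positions
at most `N`. -/
def S_LC : Prop := ∀ (b : ℕ) (_ : 2 ≤ b) (α : Type) (_ : Finite α) (τ : α → ℚ) (w : ℕ → α) (m : ℕ)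
  (B : Base m) (e : Fin m → ℕ) (_ : b = ∏ i, B.P i ^ e i) (N : ℕ → ℕ)
  (hL : Tendsto (fun n => (N n : ℝ)) atTop atTop) (r M : ℕ) (t : ℕ → ℕ → ℕ)
  (_ : ∀ n, t n 0 = N n ∧ t n r ≤ M * N n ∧ ∀ i < r, Phrase w (t n i) (t n (i + 1))),
  ∃ (ρ : ℕ → Fin (2 * r + 1) → ℕ) (P : Fin (2 * r + 1) → Rg m hL) (f : Rg m hL),
    (∀ n i, ρ n i ≤ N n) ∧
    (∀ g, f.coeff g ≠ 0 → g ∈ Submodule.span ℝ {fun i => (e i : ℝ)}) ∧
    (∀ i g, (P i).coeff g ≠ 0 → g ∈ Submodule.span ℝ {fun i => (e i : ℝ)}) ∧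
    gm (fun n => pre b τ w (t n r)) = ev B hL f + ∑ i, ev B hL (P i) * gm (fun n => pre b τ w (ρ n i))

/-- LD: a number is approximated by combinations of `2 r + 2` germs. -/
def S_LD : Prop := ∀ (b : ℕ) (_ : 2 ≤ b) (α : Type) (_ : Finite α) (τ : α → ℚ) (w : ℕ → α) (x : ℝ)
  (_ : HasSum (fun n : ℕ => (τ (w n) : ℝ) / (b : ℝ) ^ (n + 1)) x) (m : ℕ)
  (B : Base m) (e : Fin m → ℕ) (_ : b = ∏ i, B.P i ^ e i) (N : ℕ → ℕ)
  (hL : Tendsto (fun n => (N n : ℝ)) atTop atTop) (r E' : ℕ) (t : ℕ → ℕ → ℕ)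
  (_ : ∀ n, t n 0 = N n ∧ t n r = E' * N n ∧ ∀ i < r, Phrase w (t n i) (t n (i + 1)))
  (E : ℝ) (_ : E + 1 ≤ E' * Real.log b),
  Dat B hL (Submodule.span ℝ {fun i => (e i : ℝ)}) (Real.log b) (2 * r + 2) E x

/-- the numbers which are represented in the base `b` with a number of germs of order `(log E)^d` -/
def UL (b : ℕ) (x : ℝ) : Prop :=
  ∀ (m : ℕ) (B : Base m) (e : Fin m → ℕ), b = ∏ i, B.P i ^ e i →
  ∃ (C A : ℝ) (d : ℕ), 0 ≤ C ∧ 0 ≤ A ∧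
    ∀ E : ℕ, ∃ r : ℕ, (r : ℝ) ≤ A * (1 + Real.log (E + 1)) ^ d ∧
      ∀ (N : ℕ → ℕ) (_ : ∀ n, 2 ≤ N n) (hL : Tendsto (fun n => (N n : ℝ)) atTop atTop),
        Dat B hL (Submodule.span ℝ {fun i => (e i : ℝ)}) C r E x

/-- LU: numbers with exponentially growing parsings are in this class. -/
def S_LU : Prop := ∀ (b : ℕ) (_ : 2 ≤ b) (α : Type) (_ : Finite α) (τ : α → ℚ) (w : ℕ → α) (x : ℝ)
  (_ : HasSum (fun n : ℕ => (τ (w n) : ℝ) / (b : ℝ) ^ (n + 1)) x) (p : ℕ) (_ : ExpParse w p), UL b x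

end Pool.Agent.L0h79.FR
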