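import Mathlib
import Pool.Agent.L0h79.FR.Defs

set_option autoImplicit false
set_option linter.all false

/-!
# FR-LIN: numbers of linear complexity are uniformly represented
(the proof of `Pool.Agent.TH914.AL.rep` with explicit constants)
-/

namespace Pool.Agent.L0h79.FR

open Filter Topology Pool.Agent.TH932.Abs Pool.Agent.TH932.Germs Pool.Agent.TH932.Chi
open Pool.Agent.TH932.Words Pool.Agent.TH796.AL Pool.Agent.TH914.AL Pool.Agent.TH796.AL.TwoB

/-- the numbers of linear complexity in the base `b` are uniformly represented -/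
def S_LIN : Prop := ∀ (b : ℕ) (_ : 2 ≤ b) (x : ℝ) (C : ℝ)
  (_ : ∀ n : ℕ, 1 ≤ n → (cx (Pool.Agent.TH932.S2.dw b x) n : ℝ) ≤ C * n), UD b x

section block

variable {m : ℕ} (B : Base m) {b : ℕ} {e : Fin m → ℕ} (hbe : b = ∏ i, B.P i ^ e i) (hb : 2 ≤ b)
  {L : ℕ → ℝ} (hL : Tendsto L atTop atTop) {D : ℝ} (hD : 0 ≤ D) {N : ℕ → ℤ} {h : ℕ → ℕ}
  (hh : ∀ n, (h n : ℝ) * Real.log b ≤ D * L n)
include hbe hb hL hD hh

lemma block_SS : gm (fun n => (N n : ℚ) / (b : ℚ) ^ h n) ∈ SS L (RS B) (-D) := by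
  have hbc := base_cast B hbe
  rw [mem_SS]
  intro ε hε
  filter_upwards [L_nonneg hL] with n h1
  have h6 : 0 ≤ ε * L n := by positivity
  refine ⟨1, N n, fun i => -(e i * h n : ℕ), one_ne_zero, ?_, ?_, ?_⟩
  · rw [Int.cast_one, abs_one]
    exact Real.one_le_exp (by positivity)
  · have e1 : (b : ℚ) ^ h n = ∏ j, (B.P j : ℚ) ^ (e j * h n) := by
      rw [hbc, ← Finset.prod_pow]
      exact Finset.prod_congr rfl fun j _ => by rw [pow_mul]
    have e2 : ∏ i, (B.P i : ℚ) ^ (-((e i * h n : ℕ) : ℤ)) = ((b : ℚ) ^ h n)⁻¹ := by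
      rw [e1, ← Finset.prod_inv_distrib]
      exact Finset.prod_congr rfl fun j _ => by rw [zpow_neg, zpow_natCast]
    rw [e2]
    push_cast
    ring
  · intro i
    have := exp_le B hbe hh i n
    nlinarith

end block

/-- combinations with exponents on the axis -/
lemma transportV {m : ℕ} (B : Base m) {b : ℕ} {e : Fin m → ℕ} (hbe : b = ∏ i, B.P i ^ e i)
    {L : ℕ → ℝ} (hL : Tendsto L atTop atTop) {q : ℕ} (hp : 2 ≤ b) (hq : 2 ≤ q)
    (f : Pool.Agent.TH932.S2.Rg hL) (hf : ∀ g, f.coeff g ≠ 0 → ∃ t : ℝ, g = (t, 0)) :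
    ∃ f' : Rg m hL, ev B hL f' = Pool.Agent.TH932.S2.ev2 hL hp hq f ∧
      ∀ g, f'.coeff g ≠ 0 → g ∈ Submodule.span ℝ {fun i => (e i : ℝ)} := by
  classical
  refine ⟨∑ g ∈ f.coeff.support, AddMonoidAlgebra.single (fun i => e i * g.1) (f.coeff g), ?_, ?_⟩
  · rw [map_sum, Pool.Agent.TH932.S2.ev2_sum]
    refine Finset.sum_congr rfl fun g hg => ?_
    obtain ⟨t, rfl⟩ := hf g (Finsupp.mem_support_iff.1 hg)
    rw [ev_single1, ch_em B hbe hL hp hq]
  · intro g hg
    rw [AddMonoidAlgebra.coeff_sum, Finsupp.finsetSum_apply] at hg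
    obtain ⟨u, hu, hu2⟩ := Finset.exists_ne_zero_of_sum_ne_zero hg
    rw [AddMonoidAlgebra.coeff_single] at hu2
    have h1 : (fun i => (e i : ℝ) * u.1) = g := by
      by_contra hne
      exact hu2 (Finsupp.single_eq_of_ne (Ne.symm hne))
    rw [← h1, Submodule.mem_span_singleton]
    exact ⟨u.1, funext fun i => by simp [mul_comm]⟩

/-- the germs of a chain for an integer `b = ∏ P i ^ e i` -/
theorem dat_RC {m : ℕ} (B : Base m) (X : Pool.Agent.TH932.S2.RC) {e : Fin m → ℕ}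
    (hbe : X.p = ∏ i, B.P i ^ e i) (hbp : X.b = X.p) (hem : X.em = fun t => (-t, 0)) (E : ℝ) :
    Dat B X.tL (Submodule.span ℝ {fun i => (e i : ℝ)}) X.B (X.R + 3) E X.x := by
  have hbe' : X.b = ∏ i, B.P i ^ e i := by rw [hbp, hbe]
  have hB := X.B_nonneg
  have hlb := X.logb
  have hlog : ∀ h : ℕ → ℕ, (∀ n, (h n : ℝ) ≤ (X.C + 1) * X.L n) →
      ∀ n, (h n : ℝ) * Real.log X.b ≤ X.B * X.L n := by
    intro h hh n
    have h1 := hh n
    unfold Pool.Agent.TH932.S2.RC.B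
    calc (h n : ℝ) * Real.log X.b ≤ (X.C + 1) * X.L n * Real.log X.b := by gcongr
      _ = (X.C + 1) * Real.log X.b * X.L n := by ring
  have h0 : ∀ n : ℕ, (((fun _ => 0 : ℕ → ℕ) n : ℕ) : ℝ) * Real.log X.b ≤ X.B * X.L n := by
    intro n
    have h2 := X.L1 n
    have : 0 ≤ X.B * X.L n := by positivity
    simpa using this
  have hone : (1 : GG) = gm (fun n => (((fun _ => 1 : ℕ → ℤ) n : ℤ) : ℚ) /
      (X.b : ℚ) ^ ((fun _ => 0 : ℕ → ℕ) n)) := by
    rw [← gm_one]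
    congr 1
    funext n
    simp
  refine ⟨Option (Option (Fin (X.R + 1))), inferInstance, X.zf, by simp, ?_, ?_, ?_⟩
  · intro v j
    match j with
    | none =>
      change (1 : GG) ∈ _
      rw [hone]
      exact block_mem B hbe' X.hb X.tL hB h0 (fun n => by simp) v
    | some none =>
      exact block_mem B hbe' X.hb X.tL hB (N := fun n => X.Q 0 (X.nx n 0))
        (h := fun n => X.nx n 0 - 0) (hlog _ fun n => by simpa using X.nx0_le n)
        (fun n => X.Q_abs (Nat.zero_le _)) v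
    | some (some s) =>
      exact block_mem B hbe' X.hb X.tL hB (hlog _ fun n => X.len_le n s)
        (fun n => X.Qs_le n s) v
  · intro j
    match j with
    | none =>
      change (1 : GG) ∈ _
      rw [hone]
      exact block_SS B hbe' X.hb X.tL hB h0
    | some none =>
      exact block_SS B hbe' X.hb X.tL hB (N := fun n => X.Q 0 (X.nx n 0))
        (h := fun n => X.nx n 0 - 0) (hlog _ fun n => by simpa using X.nx0_le n)
    | some (some s) =>
      exact block_SS B hbe' X.hb X.tL hB (N := fun n => X.Qs n s)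
        (hlog _ fun n => X.len_le n s)
  · obtain ⟨S, ⟨P, hP1, hP2⟩, s, hs, hx⟩ := X.done E
    have h1 : ∀ j, ∃ f' : Rg m X.tL, ev B X.tL f'
        = Pool.Agent.TH932.S2.ev2 X.tL X.hp X.hq (P j) ∧
          ∀ g, f'.coeff g ≠ 0 → g ∈ Submodule.span ℝ {fun i => (e i : ℝ)} := by
      intro j
      refine transportV B hbe X.tL X.hp X.hq (P j) fun g hg => ?_
      obtain ⟨t, _, h2⟩ := hP1 j g hg
      exact ⟨-t, by rw [h2, hem]⟩
    choose P' hP' hP'' using h1
    refine ⟨P', s, hP'', ?_, hx⟩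
    rw [← hs, hP2]
    exact Finset.sum_congr rfl fun j _ => by rw [hP' j]

/-- rational numbers -/
theorem dat_const {m : ℕ} (B : Base m) {L : ℕ → ℝ} (hL : Tendsto L atTop atTop)
    (V : Submodule ℝ (Fin m → ℝ)) (q : ℚ) (E : ℝ) : Dat B hL V 0 1 E (q : ℝ) := by
  have hK : gm (fun _ => q) ∈ KK L hL := by
    have h1 : gm (fun _ => q) = ((q : KK L hL) : GG) := by
      rw [SubfieldClass.coe_ratCast]
      exact map_ratCast (⟨⟨⟨fun q : ℚ => gm (fun _ => q), rfl⟩, fun _ _ => rfl⟩, rfl,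
        fun _ _ => rfl⟩ : ℚ →+* GG) q
    rw [h1]
    exact SetLike.coe_mem _
  have h1 : (1 : GG) ∈ SS L (RS B) 0 := by
    have := (filt_S (B := B) hL).alg_mem 1
    rwa [map_one] at this
  have h2 : ∀ v, (1 : GG) ∈ Sv B L v 0 := by
    intro v
    have := (filt_v (B := B) hL v).alg_mem 1
    rwa [map_one] at this
  refine ⟨Unit, inferInstance, fun _ => 1, by simp, fun v _ => by rw [neg_zero]; exact h2 v,
    fun _ => by rw [neg_zero]; exact h1, fun _ => AddMonoidAlgebra.single 0 ⟨_, hK⟩,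
    fun _ => q, ?_, ?_, ?_⟩
  · intro _ g hg
    have : g = 0 := by
      by_contra hne
      rw [AddMonoidAlgebra.coeff_single] at hg
      exact hg (Finsupp.single_eq_of_ne hne)
    rw [this]
    exact V.zero_mem
  · simp [ev_single, ch_zero]
  · refine Eventually.of_forall fun n => ?_
    rw [sub_self, abs_zero]
    exact (Real.exp_pos _).le

theorem lin : S_LIN := by
  intro b hb x C hC m B e hbe
  by_cases hx : Irrational x
  swap
  · unfold Irrational at hx
    rw [not_not] at hx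
    obtain ⟨q, rfl⟩ := hx
    exact ⟨0, 1, le_rfl, fun N _ hL E => dat_const B hL _ q E⟩
  have : NeZero b := ⟨by omega⟩
  have hC0 : 0 ≤ |C| := abs_nonneg C
  refine ⟨(2 * |C| + 1) * Real.log b, ⌈6 * |C|⌉₊ + 3, ?_, fun N hN2 hL E => ?_⟩
  · have : 0 ≤ Real.log b := Real.log_nonneg (by exact_mod_cast (by omega : 1 ≤ b))
    positivity
  have h1 : ∀ n, ∃ l, N n ≤ 2 * l ∧ l ≤ N n ∧
      (cx (Pool.Agent.TH932.S2.dw b x) l : ℝ) ≤ 2 * |C| * l ∧
      (cx (Pool.Agent.TH932.S2.dw b x) (l + 1) : ℝ) ≤ 3 * |C|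
        + cx (Pool.Agent.TH932.S2.dw b x) l := by
    intro n
    apply Pool.Agent.TH932.S2.exists_scale2 _ hC0 (hN2 n)
    refine (hC (N n) (by have := hN2 n; omega)).trans ?_
    have := le_abs_self C
    gcongr
  choose l hl1 hl2 hl3 hl4 using h1
  have g1 : ∀ n, 1 ≤ l n := fun n => by
    have h2 := hl1 n
    have h3 := hN2 n
    omega
  have g2 : ∀ n, (l n : ℝ) ≤ (N n : ℝ) := fun n => by exact_mod_cast hl2 n
  have g3 : ∀ n, (N n : ℝ) ≤ 2 * (l n : ℝ) := fun n => by exact_mod_cast hl1 n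
  have g4 : ∀ n, 2 * cx (Pool.Agent.TH932.S2.dw b x) (l n + 1)
      ≤ ⌈6 * |C|⌉₊ + 2 * cx (Pool.Agent.TH932.S2.dw b x) (l n) := fun n => by
    have h2 := hl4 n
    have h3 : 6 * |C| ≤ (⌈6 * |C|⌉₊ : ℝ) := Nat.le_ceil _
    have h4 : ((2 * cx (Pool.Agent.TH932.S2.dw b x) (l n + 1) : ℕ) : ℝ)
        ≤ ((⌈6 * |C|⌉₊ + 2 * cx (Pool.Agent.TH932.S2.dw b x) (l n) : ℕ) : ℝ) := by
      push_cast
      linarith
    exact_mod_cast h4
  exact dat_RC B { p := b, q := b + 1, hp := hb, hq := by omega, hpq := ⟨1, -1, by push_cast; ring⟩, b := b, em := fun t => (-t, 0), hem := Or.inl ⟨rfl, rfl⟩, x := x, hx := hx, l := l, L := fun n => (N n : ℝ), R := ⌈6 * |C|⌉₊, C := 2 * |C|, tL := hL, hl1 := g1, hlL := g2, hLl := g3, hcx := hl3, hR := g4 } hbe rfl rfl E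

end Pool.Agent.L0h79.FR
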