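import Mathlib
import Pool.Agent.L0h79.FR.LinC

set_option autoImplicit false
set_option linter.all false

/-!
# FR-RING: the uniformly represented numbers form an algebra
(the proofs of `Pool.Agent.TH494.ALV` with explicit constants)
-/

namespace Pool.Agent.L0h79.FR

open Filter Topology Pool.Agent.TH932.Abs Pool.Agent.TH932.Germs Pool.Agent.TH932.Chi
open Pool.Agent.TH932.Words Pool.Agent.TH796.AL

variable {m : ℕ} {B : Base m} {L : ℕ → ℝ} {V : Submodule ℝ (Fin m → ℝ)}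

/-- monotonicity -/
theorem dat_mono (hL : Tendsto L atTop atTop) {C C' : ℝ} {r r' : ℕ} {E x : ℝ}
    (hC : C ≤ C') (hr : r ≤ r') (h : Dat B hL V C r E x) : Dat B hL V C' r' E x := by
  obtain ⟨Z, i, z, hc, h1, h2, h3⟩ := h
  exact ⟨Z, i, z, hc.trans hr, fun v j => (filt_v (B := B) hL v).anti (neg_le_neg hC) (h1 v j),
    fun j => (filt_S (B := B) hL).anti (neg_le_neg hC) (h2 j), h3⟩

/-- sums -/
theorem dat_add (hL : Tendsto L atTop atTop) {C1 C2 : ℝ} {r1' r2' : ℕ} {x y : ℝ} (E : ℝ)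
    (hx : Dat B hL V C1 r1' (E + 1) x) (hy : Dat B hL V C2 r2' (E + 1) y) :
    Dat B hL V (max C1 C2) (r1' + r2') E (x + y) := by
  obtain ⟨Z1, i1, z1, c1, h1, g1, P1, s1, v1, e1, a1⟩ := hx
  obtain ⟨Z2, i2, z2, c2, h2, g2, P2, s2, v2, e2, a2⟩ := hy
  refine ⟨Z1 ⊕ Z2, inferInstance, Sum.elim z1 z2, ?_, ?_, ?_, Sum.elim P1 P2,
    fun n => s1 n + s2 n, ?_, ?_, ?_⟩
  · rw [Fintype.card_sum]
    omega
  · rintro v (j | j)
    · exact (filt_v (B := B) hL v).anti (neg_le_neg (le_max_left _ _)) (h1 v j)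
    · exact (filt_v (B := B) hL v).anti (neg_le_neg (le_max_right _ _)) (h2 v j)
  · rintro (j | j)
    · exact (filt_S (B := B) hL).anti (neg_le_neg (le_max_left _ _)) (g1 j)
    · exact (filt_S (B := B) hL).anti (neg_le_neg (le_max_right _ _)) (g2 j)
  · rintro (j | j) g hg
    · exact v1 j g hg
    · exact v2 j g hg
  · rw [Fintype.sum_sum_type, ← gm_add, e1, e2]
    rfl
  · filter_upwards [a1, a2, two_le_exp hL one_pos] with n b1 b2 b3
    have e : x + y - ((s1 n + s2 n : ℚ) : ℝ) = (x - s1 n) + (y - s2 n) := by push_cast; ring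
    rw [e]
    calc |(x - s1 n) + (y - s2 n)| ≤ |x - s1 n| + |y - s2 n| := abs_add_le _ _
      _ ≤ Real.exp (-((E + 1) * L n)) + Real.exp (-((E + 1) * L n)) := by gcongr
      _ = 2 * Real.exp (-((E + 1) * L n)) := by ring
      _ ≤ Real.exp (1 * L n) * Real.exp (-((E + 1) * L n)) := by gcongr
      _ = Real.exp (-(E * L n)) := by rw [← Real.exp_add]; ring_nf

/-- products -/
theorem dat_mul (hL : Tendsto L atTop atTop) {C1 C2 : ℝ} {r1' r2' : ℕ} {x y : ℝ} (E : ℝ)
    (hx : Dat B hL V C1 r1' (|E| + 1) x) (hy : Dat B hL V C2 r2' (|E| + 1) y) :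
    Dat B hL V (C1 + C2) (r1' * r2') E (x * y) := by
  classical
  obtain ⟨Z1, i1, z1, c1, h1, g1, P1, s1, v1, e1, a1⟩ := hx
  obtain ⟨Z2, i2, z2, c2, h2, g2, P2, s2, v2, e2, a2⟩ := hy
  refine ⟨Z1 × Z2, inferInstance, fun p => z1 p.1 * z2 p.2, ?_, ?_, ?_,
    fun p => P1 p.1 * P2 p.2, fun n => s1 n * s2 n, ?_, ?_, ?_⟩
  · rw [Fintype.card_prod]
    exact Nat.mul_le_mul c1 c2
  · rintro v ⟨i, j⟩
    have := (filt_v (B := B) hL v).mul_mem (h1 v i) (h2 v j)
    rw [← neg_add] at this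
    exact this
  · rintro ⟨i, j⟩
    have := (filt_S (B := B) hL).mul_mem (g1 i) (g2 j)
    rw [← neg_add] at this
    exact this
  · rintro ⟨i, j⟩ g hg
    have h3 : g ∈ (P1 i * P2 j).coeff.support := Finsupp.mem_support_iff.2 hg
    have h4 := AddMonoidAlgebra.support_coeff_mul_subset (P1 i) (P2 j) h3
    rw [Finset.mem_add] at h4
    obtain ⟨g1', hg1, g2', hg2, rfl⟩ := h4
    exact V.add_mem (v1 i g1' (Finsupp.mem_support_iff.1 hg1))
      (v2 j g2' (Finsupp.mem_support_iff.1 hg2))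
  · rw [Fintype.sum_prod_type, ← gm_mul, e1, e2, Finset.sum_mul_sum]
    refine Finset.sum_congr rfl fun i _ => Finset.sum_congr rfl fun j _ => ?_
    rw [map_mul]
    ring
  · set E' : ℝ := |E| + 1 with hE'
    have hE0 : 0 < E' := by positivity
    have hev : ∀ᶠ n in (UU : Filter ℕ), Real.log (|x| + |y| + 1) ≤ L n :=
      ev_of_atTop (hL.eventually_ge_atTop _)
    filter_upwards [a1, a2, hev, L_nonneg hL] with n b1 b2 b3 b4
    have e : x * y - ((s1 n * s2 n : ℚ) : ℝ) = x * (y - s2 n) + s2 n * (x - s1 n) := by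
      push_cast; ring
    rw [e]
    have hexp : Real.exp (-(E' * L n)) ≤ 1 := by
      rw [Real.exp_le_one_iff]
      have : 0 ≤ E' * L n := by positivity
      linarith
    have hs2 : |(s2 n : ℝ)| ≤ |y| + 1 := by
      have h3 : (s2 n : ℝ) = y - (y - s2 n) := by ring
      rw [h3]
      refine (abs_sub _ _).trans ?_
      linarith
    have hpos : 0 < |x| + |y| + 1 := by positivity
    have hle : |x| + |y| + 1 ≤ Real.exp (L n) := by
      calc |x| + |y| + 1 = Real.exp (Real.log (|x| + |y| + 1)) := (Real.exp_log hpos).symm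
        _ ≤ _ := Real.exp_le_exp.2 b3
    calc |x * (y - s2 n) + s2 n * (x - s1 n)|
        ≤ |x * (y - s2 n)| + |(s2 n : ℝ) * (x - s1 n)| := abs_add_le _ _
      _ = |x| * |y - s2 n| + |(s2 n : ℝ)| * |x - s1 n| := by rw [abs_mul, abs_mul]
      _ ≤ |x| * Real.exp (-(E' * L n)) + (|y| + 1) * Real.exp (-(E' * L n)) := by gcongr
      _ = (|x| + |y| + 1) * Real.exp (-(E' * L n)) := by ring
      _ ≤ Real.exp (L n) * Real.exp (-(E' * L n)) := by gcongr
      _ = Real.exp (-(|E| * L n)) := by rw [← Real.exp_add, hE']; ring_nf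
      _ ≤ Real.exp (-(E * L n)) := by
        apply Real.exp_le_exp.2
        have := mul_le_mul_of_nonneg_right (le_abs_self E) b4
        linarith

theorem ring : S_RING := by
  intro b hb
  refine ⟨fun q m B e hbe => ⟨0, 1, le_rfl, fun N _ hL E => dat_const B hL _ q E⟩,
    fun x y hx hy m B e hbe => ?_, fun x y hx hy m B e hbe => ?_⟩
  · obtain ⟨C1, r1, hC1, h1⟩ := hx m B e hbe
    obtain ⟨C2, r2, hC2, h2⟩ := hy m B e hbe
    exact ⟨max C1 C2, r1 + r2, le_max_of_le_left hC1, fun N hN hL E =>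
      dat_add hL E (h1 N hN hL _) (h2 N hN hL _)⟩
  · obtain ⟨C1, r1, hC1, h1⟩ := hx m B e hbe
    obtain ⟨C2, r2, hC2, h2⟩ := hy m B e hbe
    exact ⟨C1 + C2, r1 * r2, add_nonneg hC1 hC2, fun N hN hL E =>
      dat_mul hL E (h1 N hN hL _) (h2 N hN hL _)⟩

/-- a common base -/
theorem base : S_BASE := by
  intro k b hb
  obtain ⟨m, B, h⟩ := Fld.exists_base b hb
  choose e he using h
  exact ⟨m, B, e, he⟩

/-- MAIN -/
theorem main (h1 : S_DIR) (h2 : S_GLUE) : S_MAIN := by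
  classical
  intro k b hb hind y α hy hα hsum i
  obtain ⟨m, B, e, hbe⟩ := base k b hb
  choose C r hC0 hD using fun i => hy i m B (e i) (hbe i)
  obtain ⟨κ, hκ, hdir⟩ := h1 m B k (fun i => Submodule.span ℝ {fun j => (e i j : ℝ)})
    (fun i j hij => TwoB.disjoint_of_indep B (hind i j hij) (e i) (e j) (hbe i) (hbe j))
  set CC : ℝ := ∑ i, C i with hCC
  have hCi : ∀ i, C i ≤ CC := fun i =>
    Finset.single_le_sum (f := C) (fun j _ => hC0 j) (Finset.mem_univ i)
  have hCC0 : 0 ≤ CC := Finset.sum_nonneg fun i _ => hC0 i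
  set rr : ℕ := ∑ i, r i with hrr
  have hri : ∀ i, r i ≤ rr := fun i =>
    Finset.single_le_sum (f := r) (fun j _ => Nat.zero_le _) (Finset.mem_univ i)
  set H : ℝ := κ * (CC + 1) * ((rr : ℝ) + 1) ^ 2 with hH
  have hH0 : 0 ≤ H := by positivity
  refine h2 (y i) H hH0 fun N hN hT => ?_
  have hL : Tendsto (fun n => (N n : ℝ)) atTop atTop := tendsto_natCast_atTop_atTop.comp hT
  obtain ⟨g, hg1, hg2⟩ := hdir CC hCC0 rr (fun n => (N n : ℝ)) hL y α hα (3 * H + 2)
    (fun i => dat_mono hL (hCi i) (hri i) (hD i N hN hL _)) hsum i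
  refine ⟨g, hg1, ?_⟩
  filter_upwards [hg2] with n hn
  refine hn.trans (le_of_eq ?_)
  rw [hH]
  ring_nf

end Pool.Agent.L0h79.FR
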