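import Mathlib
import Pool.Agent.L0h79.FR.Ring
import Pool.Agent.L0h79.FR.LZ

set_option autoImplicit false
set_option linter.all false

/-!
# FR: the class `UL` and polynomials
-/

namespace Pool.Agent.L0h79.FR

open Filter Topology Pool.Agent.TH932.Abs Pool.Agent.TH932.Germs Pool.Agent.TH932.Chi
open Pool.Agent.TH932.Words Pool.Agent.TH796.AL

section
variable {m : ℕ} {B : Base m} {L : ℕ → ℝ} {V : Submodule ℝ (Fin m → ℝ)}

theorem dat_monoE (hL : Tendsto L atTop atTop) {C : ℝ} {r : ℕ} {E E' x : ℝ}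
    (hE : E' ≤ E) (h : Dat B hL V C r E x) : Dat B hL V C r E' x := by
  obtain ⟨Z, i, z, hc, h1, h2, P, s, h3, h4, h5⟩ := h
  refine ⟨Z, i, z, hc, h1, h2, P, s, h3, h4, ?_⟩
  filter_upwards [h5, L_nonneg hL] with n g1 g2
  refine g1.trans (Real.exp_le_exp.2 ?_)
  nlinarith

/-- polynomials -/
theorem dat_poly {σ : Type} (f : MvPolynomial σ ℚ) : ∃ D : ℕ, ∀ (m : ℕ) (B : Base m) (L : ℕ → ℝ)
    (hL : Tendsto L atTop atTop) (V : Submodule ℝ (Fin m → ℝ)) (x : σ → ℝ) (C : ℝ) (_ : 0 ≤ C)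
    (r : ℕ) (E : ℝ) (_ : 0 ≤ E), (∀ i, Dat B hL V C r (E + D) (x i)) →
    Dat B hL V (D * C) ((r + 2) ^ D) E (MvPolynomial.aeval x f) := by
  induction f using MvPolynomial.induction_on with
  | C a =>
    refine ⟨0, fun m B L hL V x C hC r E hE h => ?_⟩
    rw [MvPolynomial.aeval_C]
    have h1 := dat_const B hL V a E
    refine dat_mono hL ?_ ?_ h1
    · simp
    · simp
  | add f g hf hg =>
    obtain ⟨D1, h1⟩ := hf
    obtain ⟨D2, h2⟩ := hg
    refine ⟨D1 + D2 + 1, fun m B L hL V x C hC r E hE h => ?_⟩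
    rw [map_add]
    have e1 := h1 m B L hL V x C hC r (E + 1) (by linarith) (fun i => dat_monoE hL (by
      push_cast
      have : (0 : ℝ) ≤ D2 := Nat.cast_nonneg _
      linarith) (h i))
    have e2 := h2 m B L hL V x C hC r (E + 1) (by linarith) (fun i => dat_monoE hL (by
      push_cast
      have : (0 : ℝ) ≤ D1 := Nat.cast_nonneg _
      linarith) (h i))
    refine dat_mono hL ?_ ?_ (dat_add hL E e1 e2)
    · push_cast
      have a1 : (0 : ℝ) ≤ D1 * C := by positivity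
      have a2 : (0 : ℝ) ≤ D2 * C := by positivity
      refine max_le ?_ ?_ <;> nlinarith
    · have a1 : 1 ≤ (r + 2) ^ D1 := Nat.one_le_pow _ _ (by omega)
      have a2 : 1 ≤ (r + 2) ^ D2 := Nat.one_le_pow _ _ (by omega)
      have a3 : (r + 2) ^ (D1 + D2 + 1) = (r + 2) ^ D1 * (r + 2) ^ D2 * (r + 2) := by
        rw [pow_succ, pow_add]
      rw [a3]
      nlinarith [Nat.mul_le_mul a1 a2, Nat.zero_le r, Nat.zero_le (r * ((r + 2) ^ D1 * (r + 2) ^ D2))]
  | mul_X f i hf =>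
    obtain ⟨D1, h1⟩ := hf
    refine ⟨D1 + 1, fun m B L hL V x C hC r E hE h => ?_⟩
    rw [map_mul, MvPolynomial.aeval_X]
    have e1 := h1 m B L hL V x C hC r (|E| + 1) (by positivity) (fun i => dat_monoE hL (by
      rw [abs_of_nonneg hE]
      push_cast
      linarith) (h i))
    have e2 : Dat B hL V C r (|E| + 1) (x i) := dat_monoE hL (by
      rw [abs_of_nonneg hE]
      push_cast
      have : (0 : ℝ) ≤ D1 := Nat.cast_nonneg _
      linarith) (h i)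
    refine dat_mono hL ?_ ?_ (dat_mul hL E e1 e2)
    · push_cast
      linarith
    · rw [pow_succ]
      exact Nat.mul_le_mul le_rfl (by omega)

end

theorem ul_of_ud {b : ℕ} {x : ℝ} (h : UD b x) : UL b x := by
  intro m B e hbe
  obtain ⟨C, r, hC, h1⟩ := h m B e hbe
  exact ⟨C, r, 0, hC, Nat.cast_nonneg _, fun E => ⟨r, by simp, fun N hN hL => h1 N hN hL E⟩⟩

theorem log_succ (E : ℕ) : 1 + Real.log ((E + 1 : ℕ) + 1) ≤ 2 * (1 + Real.log (E + 1)) := by
  have h1 : (0 : ℝ) < (E : ℝ) + 1 := by positivity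
  have h2 : Real.log ((E + 1 : ℕ) + 1) ≤ Real.log (2 * ((E : ℝ) + 1)) := by
    apply Real.log_le_log (by positivity)
    push_cast
    have : (0 : ℝ) ≤ E := Nat.cast_nonneg _
    linarith
  rw [Real.log_mul (by norm_num) h1.ne'] at h2
  have h3 : Real.log 2 ≤ 1 := by
    have := Real.log_two_lt_d9
    linarith
  have h4 : 0 ≤ Real.log ((E : ℝ) + 1) := Real.log_nonneg (by
    have : (0 : ℝ) ≤ E := Nat.cast_nonneg _
    linarith)
  linarith

theorem one_le_log (E : ℕ) : 1 ≤ 1 + Real.log ((E : ℝ) + 1) := by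
  have h4 : 0 ≤ Real.log ((E : ℝ) + 1) := Real.log_nonneg (by
    have : (0 : ℝ) ≤ E := Nat.cast_nonneg _
    linarith)
  linarith

theorem ul_const (b : ℕ) (q : ℚ) : UL b (q : ℝ) :=
  ul_of_ud (fun m B e hbe => ⟨0, 1, le_rfl, fun N _ hL E => dat_const B hL _ q E⟩)

theorem ul_add {b : ℕ} {x y : ℝ} (hx : UL b x) (hy : UL b y) : UL b (x + y) := by
  intro m B e hbe
  obtain ⟨C1, A1, d1, hC1, hA1, h1⟩ := hx m B e hbe
  obtain ⟨C2, A2, d2, hC2, hA2, h2⟩ := hy m B e hbe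
  refine ⟨max C1 C2, 2 ^ d1 * A1 + 2 ^ d2 * A2, d1 + d2, le_max_of_le_left hC1, by positivity,
    fun E => ?_⟩
  obtain ⟨r1, hr1, g1⟩ := h1 (E + 1)
  obtain ⟨r2, hr2, g2⟩ := h2 (E + 1)
  refine ⟨r1 + r2, ?_, fun N hN hL => ?_⟩
  · have hl := log_succ E
    have h0 := one_le_log E
    have h0' := one_le_log (E + 1)
    set X := 1 + Real.log ((E : ℝ) + 1) with hX
    set Y := 1 + Real.log (((E + 1 : ℕ) : ℝ) + 1) with hY
    have a1 : Y ^ d1 ≤ 2 ^ d1 * X ^ (d1 + d2) := by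
      calc Y ^ d1 ≤ (2 * X) ^ d1 := by gcongr
        _ = 2 ^ d1 * X ^ d1 := by rw [mul_pow]
        _ ≤ 2 ^ d1 * X ^ (d1 + d2) := by
          gcongr
          omega
    have a2 : Y ^ d2 ≤ 2 ^ d2 * X ^ (d1 + d2) := by
      calc Y ^ d2 ≤ (2 * X) ^ d2 := by gcongr
        _ = 2 ^ d2 * X ^ d2 := by rw [mul_pow]
        _ ≤ 2 ^ d2 * X ^ (d1 + d2) := by
          gcongr
          omega
    push_cast
    calc (r1 : ℝ) + r2 ≤ A1 * Y ^ d1 + A2 * Y ^ d2 := add_le_add hr1 hr2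
      _ ≤ A1 * (2 ^ d1 * X ^ (d1 + d2)) + A2 * (2 ^ d2 * X ^ (d1 + d2)) := by gcongr
      _ = _ := by ring
  · have e1 := g1 N hN hL
    have e2 := g2 N hN hL
    push_cast at e1 e2
    exact dat_add hL _ e1 e2

theorem ul_mul {b : ℕ} {x y : ℝ} (hx : UL b x) (hy : UL b y) : UL b (x * y) := by
  intro m B e hbe
  obtain ⟨C1, A1, d1, hC1, hA1, h1⟩ := hx m B e hbe
  obtain ⟨C2, A2, d2, hC2, hA2, h2⟩ := hy m B e hbe
  refine ⟨C1 + C2, (2 ^ d1 * A1) * (2 ^ d2 * A2), d1 + d2, by positivity, by positivity,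
    fun E => ?_⟩
  obtain ⟨r1, hr1, g1⟩ := h1 (E + 1)
  obtain ⟨r2, hr2, g2⟩ := h2 (E + 1)
  refine ⟨r1 * r2, ?_, fun N hN hL => ?_⟩
  · have hl := log_succ E
    have h0 := one_le_log E
    have h0' := one_le_log (E + 1)
    set X := 1 + Real.log ((E : ℝ) + 1) with hX
    set Y := 1 + Real.log (((E + 1 : ℕ) : ℝ) + 1) with hY
    push_cast
    calc (r1 : ℝ) * r2 ≤ (A1 * Y ^ d1) * (A2 * Y ^ d2) := by gcongr
      _ ≤ (A1 * (2 * X) ^ d1) * (A2 * (2 * X) ^ d2) := by gcongr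
      _ = _ := by rw [mul_pow, mul_pow, pow_add]; ring
  · have e1 := g1 N hN hL
    have e2 := g2 N hN hL
    push_cast at e1 e2
    refine dat_mul hL _ ?_ ?_
    · rwa [abs_of_nonneg (Nat.cast_nonneg E)]
    · rwa [abs_of_nonneg (Nat.cast_nonneg E)]

/-- the algebra -/
theorem ul_adjoin {b : ℕ} {S : Set ℝ} (hS : ∀ x ∈ S, UL b x) {y : ℝ}
    (hy : y ∈ Algebra.adjoin ℚ S) : UL b y := by
  induction hy using Algebra.adjoin_induction with
  | mem x hx => exact hS x hx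
  | algebraMap q => exact ul_const b q
  | add x y _ _ hx hy => exact ul_add hx hy
  | mul x y _ _ hx hy => exact ul_mul hx hy

/-- powers of logarithms are negligible -/
theorem polylog (A : ℝ) (d : ℕ) (c : ℝ) : ∃ E : ℕ, ∀ E' : ℕ, E ≤ E' →
    A * (1 + Real.log (E' + 1)) ^ d + c ≤ E' := by
  have h1 : (fun x : ℝ => Real.log x ^ d) =o[atTop] id := Real.isLittleO_pow_log_id_atTop
  have h2 : ∀ᶠ x : ℝ in atTop, ‖Real.log x ^ d‖ ≤ (1 / (2 * (|A| + 1) * 2 ^ d)) * ‖id x‖ :=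
    h1.bound (by positivity)
  have h3 : ∀ᶠ x : ℝ in atTop, |A| * 2 ^ d * Real.log x ^ d + 1 ≤ x - |c| - 1 := by
    filter_upwards [h2, eventually_ge_atTop (2 * (|c| + 2)), eventually_ge_atTop 1] with x g1 g2 g3
    have g4 : 0 ≤ Real.log x := Real.log_nonneg g3
    rw [Real.norm_of_nonneg (by positivity), id, Real.norm_of_nonneg (by linarith)] at g1
    have g5 : |A| * 2 ^ d * Real.log x ^ d ≤ x / 2 := by
      calc |A| * 2 ^ d * Real.log x ^ d
          ≤ (|A| + 1) * 2 ^ d * (1 / (2 * (|A| + 1) * 2 ^ d) * x) := by gcongr; linarith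
        _ = x / 2 := by field_simp
    linarith
  obtain ⟨X, hX⟩ := eventually_atTop.1 h3
  obtain ⟨E, hE⟩ := exists_nat_ge (max X 3)
  refine ⟨E, fun E' hE' => ?_⟩
  have hE'' : max X 3 ≤ (E' : ℝ) := hE.trans (by exact_mod_cast hE')
  have g1 := hX (E' + 1) ((le_max_left _ _).trans (hE''.trans (by linarith)))
  have g2 : 1 ≤ Real.log ((E' : ℝ) + 1) := by
    rw [Real.le_log_iff_exp_le (by positivity)]
    have := Real.exp_one_lt_d9
    have := (le_max_right _ _).trans hE''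
    linarith
  have g3 : (1 + Real.log ((E' : ℝ) + 1)) ^ d ≤ 2 ^ d * Real.log ((E' : ℝ) + 1) ^ d := by
    rw [← mul_pow]
    gcongr
    linarith
  have g4 := le_abs_self A
  have g5 := le_abs_self c
  calc A * (1 + Real.log (E' + 1)) ^ d + c
      ≤ |A| * (1 + Real.log (E' + 1)) ^ d + |c| := by gcongr
    _ ≤ |A| * (2 ^ d * Real.log ((E' : ℝ) + 1) ^ d) + |c| := by gcongr
    _ ≤ E' := by linarith

/-- MAIN for the class `UL` -/
def S_MAINL : Prop := ∀ (k : ℕ) (b : Fin k → ℕ), (∀ i, 2 ≤ b i) →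
  (∀ i j, i ≠ j → TwoB.Indep (b i) (b j)) → ∀ (y α : Fin k → ℝ), (∀ i, UL (b i) (y i)) →
  (∀ i, IsAlgebraic ℚ (α i) ∧ α i ≠ 0) → ∑ i, α i * y i = 0 → ∀ i, ∃ q : ℚ, y i = q

theorem mainl (h1 : S_DIR) (h2 : S_GLUE) : S_MAINL := by
  classical
  intro k b hb hind y α hy hα hsum i
  obtain ⟨m, B, e, hbe⟩ := base k b hb
  choose C A d hC0 hA0 hD using fun i => hy i m B (e i) (hbe i)
  obtain ⟨κ, hκ, hdir⟩ := h1 m B k (fun i => Submodule.span ℝ {fun j => (e i j : ℝ)})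
    (fun i j hij => TwoB.disjoint_of_indep B (hind i j hij) (e i) (e j) (hbe i) (hbe j))
  set CC : ℝ := ∑ i, C i with hCC
  have hCi : ∀ i, C i ≤ CC := fun i =>
    Finset.single_le_sum (f := C) (fun j _ => hC0 j) (Finset.mem_univ i)
  have hCC0 : 0 ≤ CC := Finset.sum_nonneg fun i _ => hC0 i
  set AA : ℝ := ∑ i, A i with hAA
  have hAA0 : 0 ≤ AA := Finset.sum_nonneg fun i _ => hA0 i
  set dd : ℕ := ∑ i, d i with hdd
  have hdi : ∀ i, d i ≤ dd := fun i =>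
    Finset.single_le_sum (f := d) (fun j _ => Nat.zero_le _) (Finset.mem_univ i)
  -- choose the precision
  obtain ⟨E, hE⟩ := polylog (3 * (κ * (CC + 1) * (AA + 1) ^ 2)) (dd * 2) 2
  have hE := hE E le_rfl
  choose r hr hdat using fun i => hD i E
  set rr : ℕ := ∑ i, r i with hrr
  have hri : ∀ i, r i ≤ rr := fun i =>
    Finset.single_le_sum (f := r) (fun j _ => Nat.zero_le _) (Finset.mem_univ i)
  have hX := one_le_log E
  set X := 1 + Real.log ((E : ℝ) + 1) with hXdef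
  have hrr2 : (rr : ℝ) ≤ AA * X ^ dd := by
    rw [hrr]
    push_cast
    rw [hAA, Finset.sum_mul]
    refine Finset.sum_le_sum fun i _ => (hr i).trans ?_
    have := hA0 i
    gcongr
    exact hdi i
  have hrr3 : (rr : ℝ) + 1 ≤ (AA + 1) * X ^ dd := by
    have : 1 ≤ X ^ dd := one_le_pow₀ hX
    nlinarith
  set H : ℝ := κ * (CC + 1) * ((rr : ℝ) + 1) ^ 2 with hH
  have hH0 : 0 ≤ H := by positivity
  have hHE : 3 * H + 2 ≤ E := by
    refine le_trans ?_ hE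
    have : ((rr : ℝ) + 1) ^ 2 ≤ (AA + 1) ^ 2 * X ^ (dd * 2) := by
      rw [pow_mul, ← mul_pow]
      gcongr
    rw [hH]
    calc 3 * (κ * (CC + 1) * ((rr : ℝ) + 1) ^ 2) + 2
        ≤ 3 * (κ * (CC + 1) * ((AA + 1) ^ 2 * X ^ (dd * 2))) + 2 := by gcongr
      _ = _ := by ring
  refine h2 (y i) H hH0 fun N hN hT => ?_
  have hL : Tendsto (fun n => (N n : ℝ)) atTop atTop := tendsto_natCast_atTop_atTop.comp hT
  obtain ⟨g, hg1, hg2⟩ := hdir CC hCC0 rr (fun n => (N n : ℝ)) hL y α hα E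
    (fun i => dat_mono hL (hCi i) (hri i) (hdat i N hN hL)) hsum i
  refine ⟨g, hg1, ?_⟩
  filter_upwards [hg2] with n hn
  refine hn.trans (Real.exp_le_exp.2 ?_)
  have h5 : (0 : ℝ) ≤ N n := Nat.cast_nonneg _
  have h6 : 2 * H + 2 ≤ E - H := by linarith
  have h7 : (2 * H + 2) * (N n : ℝ) ≤ (E - H) * N n := by gcongr
  linarith

end Pool.Agent.L0h79.FR
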