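import Mathlib
import Pool.Agent.TH796.AL.Alg4
import Pool.Agent.TH796.AL.Ai5
import Pool.Agent.L0h79.FR.Defs

set_option autoImplicit false
set_option linter.all false

/-!
# FR: fields, words of finite rank in one base and linear complexity along a set of scales
-/

namespace Pool.Agent.L0h79.FR

open Filter Topology Pool.Agent.TH932.Abs Pool.Agent.TH932.Germs Pool.Agent.TH932.Chi
open Pool.Agent.TH932.Words Pool.Agent.TH796.AL Pool.Agent.TH796.AL.Final
open Pool.Agent.TH796.AL.Grp Pool.Agent.TH796.AL.Ai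

/-- the sums of `τ(w_n) / b^(n+1)`, for words `w` of finite rank -/
def FRNum (b : ℕ) (x : ℝ) : Prop :=
  ∃ (α : Type) (_ : Finite α) (τ : α → ℚ) (w : ℕ → α) (k C : ℕ),
    HasSum (fun n : ℕ => (τ (w n) : ℝ) / (b : ℝ) ^ (n + 1)) x ∧ FinRank w k C

/-- these numbers and the numbers of linear complexity at the scales in `S` -/
def MixCls (S : Set ℕ) (b : ℕ) : Set ℝ :=
  {x | FRNum b x ∨ ∃ C : ℝ, ∀ n ∈ S, (complexity (digit b x) n : ℝ) ≤ C * n}

theorem mix_mem (hrv : S_RV) {S : Set ℕ} (hS : S.Infinite) {r : ℕ} (b : Fin r → ℕ)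
    (hb : ∀ i, 2 ≤ b i) : ∃ (m : ℕ) (B : Base m) (e : Fin r → Fin m → ℕ) (L : ℕ → ℝ)
    (hL : Tendsto L atTop atTop), (∀ i, b i = ∏ j, B.P j ^ e i j) ∧
    ∀ i, Subfield.closure (MixCls S (b i)) ≤ FV B hL (Submodule.span ℝ {fun j => (e i j : ℝ)}) := by
  obtain ⟨m, B, h⟩ := Fld.exists_base b hb
  choose e he using h
  have h1 : ∀ n : ℕ, ∃ N ∈ S, max n 2 < N := fun n => hS.exists_gt _
  choose N hNS hN using h1
  have hT : Tendsto N atTop atTop :=
    tendsto_atTop_mono (fun n => (le_max_left n 2).trans (hN n).le) tendsto_id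
  have hL : Tendsto (fun n => (N n : ℝ)) atTop atTop := tendsto_natCast_atTop_atTop.comp hT
  refine ⟨m, B, e, fun n => (N n : ℝ), hL, he, fun i => ?_⟩
  rw [Subfield.closure_le]
  intro x hx
  refine Subfield.subset_closure ?_
  change RepV B hL _ x
  rcases hx with ⟨α, hα, τ, w, k, C, hsum, hw⟩ | ⟨C, hC⟩
  · exact hrv (b i) (hb i) α hα τ w x hsum k C hw m B (e i) (he i) N hL
  · refine TwoB.repV_digits B (hb i) (e i) (he i) _ (Submodule.mem_span_singleton_self _) x N
      (fun n => (le_max_right n 2).trans (hN n).le) C (fun n => ?_) hL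
    rw [← complexity_digit (hb i)]
    exact hC _ (hNS n)

/-- one number in two fields -/
theorem mix_two (hrv : S_RV) {a b : ℕ} (ha : 2 ≤ a) (hb : 2 ≤ b) (h : TwoB.Indep a b) {S : Set ℕ}
    (hS : S.Infinite) {x : ℝ} (hx : x ∈ Subfield.closure (MixCls S a))
    (hy : x ∈ Subfield.closure (MixCls S b)) (hirr : Irrational x) : Liouville x := by
  obtain ⟨m, B, e, L, hL, he, h1⟩ := mix_mem hrv hS ![a, b] (by
    intro i
    fin_cases i
    · exact ha
    · exact hb)
  exact two (B := B) (hL := hL) tensor2_thm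
    (TwoB.disjoint_of_indep B h (e 0) (e 1) (he 0) (he 1)) (h1 0 hx) (h1 1 hy) hirr

theorem span_le {m : ℕ} (B : Base m) {b : ℕ} (hb : 2 ≤ b) {e : Fin m → ℕ}
    (he : b = ∏ j, B.P j ^ e j) :
    Submodule.span ℝ {fun j => (e j : ℝ)} ≤ VS B (GA {b}) := by
  refine Submodule.span_le.2 ?_
  rintro v rfl
  obtain ⟨u, hu, hub⟩ := mem_GA (A := {b}) hb rfl
  refine Submodule.subset_span ⟨fun j => (e j : ℤ), by simp, u, hu, ?_⟩
  rw [hub, he]
  push_cast
  exact Finset.prod_congr rfl fun j _ => by rw [zpow_natCast]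

/-- algebraic independence -/
theorem mix_ai (hrv : S_RV) {r : ℕ} {b : Fin r → ℕ} (hb : ∀ i, 2 ≤ b i)
    (h : ∀ k : Fin r → ℤ, ∏ i, (b i : ℚ) ^ k i = 1 → k = 0) {S : Set ℕ} (hS : S.Infinite)
    (x : Fin r → ℝ) (hx : ∀ i, Transcendental ℚ (x i) ∧
        IsAlgebraic (Subfield.closure (MixCls S (b i))) (x i) ∨
      Irrational (x i) ∧ x i ∈ Subfield.closure (MixCls S (b i))) :
    AlgebraicIndependent ℚ x ∨ ∃ i, UNumber (x i) := by
  by_cases hdep : AlgebraicIndependent ℚ x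
  · exact Or.inl hdep
  right
  by_contra hcon
  push Not at hcon
  obtain ⟨m, B, e, L, hL, he, h1⟩ := mix_mem hrv hS b hb
  have hind : iSupIndep fun i => Submodule.span ℝ {fun j => (e i j : ℝ)} :=
    (vindep B (gindep_bases hb h)).mono fun i => span_le B (hb i) (he i)
  have htr : ∀ i, Transcendental ℚ (x i) := by
    intro i
    rcases hx i with h2 | h2
    · exact h2.1
    · exact transc (h1 i h2.2) h2.1
  have halg : ∀ i, IsAlgebraic (FV B hL (Submodule.span ℝ {fun j => (e i j : ℝ)})) (x i) := by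
    intro i
    rcases hx i with h2 | h2
    · obtain ⟨p, hp0, hp⟩ := h2.2
      exact Alg.change_field p hp0 hp fun j => h1 i (p.coeff j).2
    · exact isAlgebraic_algebraMap (⟨x i, h1 i h2.2⟩ :
        FV B hL (Submodule.span ℝ {fun j => (e i j : ℝ)}))
  apply hdep
  refine Alg.toQ (R := Alg.RG hL B) x (Alg.kst hL) ?_
  refine AlgA.fam_indep r (fun i => Alg.UF B hL (Submodule.span ℝ {fun j => (e i j : ℝ)}))
    (fun k => Alg.UF B hL (⨆ j : Fin r, ⨆ (_ : j ≠ k), Submodule.span ℝ {fun l => (e j l : ℝ)}))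
    (fun k => ?_) (fun j k hjk => ?_)
    (fun i => Alg.kst hL (x i)) (fun i => Alg.alg_kst (halg i)) (fun i hi => ?_)
  · exact Alg.ld (hind k).symm
  · exact Alg.UF_mono (le_iSup₂_of_le j hjk.ne le_rfl)
  · exact hcon i (Alg.unumber_of_alg (htr i) hi)

end Pool.Agent.L0h79.FR
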