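import Mathlib
import Pool.Agent.L0h79.FR.UL
import Pool.Agent.L0h79.FR.Mix

set_option autoImplicit false
set_option linter.all false

/-!
# FR: morphic words and digits
-/

namespace Pool.Agent.L0h79.FR

open Filter Topology Pool.Agent.TH932.Abs Pool.Agent.TH932.Germs Pool.Agent.TH932.Chi
open Pool.Agent.TH932.Words Pool.Agent.TH796.AL Pool.Agent.TH796.AL.Final

/-! ## words -/

theorem finrank_comp {α β : Type} (f : α → β) {w : ℕ → α} {k C : ℕ} (h : FinRank w k C) :
    FinRank (fun n => f (w n)) k C := by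
  obtain ⟨W, hW, h⟩ := h
  refine ⟨fun N j => (W N j).map f, fun N j => by simpa using hW N j, fun E => ?_⟩
  obtain ⟨M, N₀, h⟩ := h E
  refine ⟨M, N₀, fun N hN => ?_⟩
  obtain ⟨l, hl, h1, h2⟩ := h N hN
  have e1 : l.flatMap (fun j => (W N j).map f) = (l.flatMap (W N)).map f := by
    rw [List.map_flatMap]
  refine ⟨l, hl, ?_, ?_⟩
  · rw [e1, List.length_map]
    exact h1
  · intro i hi
    have hi' : i < (l.flatMap (W N)).length := by
      rw [e1, List.length_map] at hi
      exact hi
    have h3 : (l.flatMap (fun j => (W N j).map f))[i]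
        = ((l.flatMap (W N)).map f)[i]'(by rw [List.length_map]; exact hi') := by
      congr 1
    rw [h3, List.getElem_map, h2 i hi']

theorem expparse_comp {α β : Type} (f : α → β) {w : ℕ → α} {p : ℕ} (h : ExpParse w p) :
    ExpParse (fun n => f (w n)) p := by
  obtain ⟨t, h0, h1, h2, h3⟩ := h
  refine ⟨t, h0, h1, h2, fun i => ⟨(h3 i).1, ?_⟩⟩
  rcases (h3 i).2 with h4 | ⟨δ, h5, h6, h7⟩
  · exact Or.inl h4
  · exact Or.inr ⟨δ, h5, h6, fun j hj hj' => congrArg f (h7 j hj hj')⟩

/-- `u` is the image under a coding of a fixed point of a substitution whose iterates at the letter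
`a` have lengths which are not bounded by a polynomial -/
def ExpMorphic {β : Type} (u : ℕ → β) : Prop :=
  ∃ (α : Type) (_ : Finite α) (σ : α → List α) (a : α) (v : ℕ → α) (f : α → β),
    (∀ K : ℕ, ∃ n : ℕ, K * (n + 1) ^ K < (sub σ n [a]).length) ∧
    (∀ n i, ∀ hi : i < (sub σ n [a]).length, (sub σ n [a])[i] = v i) ∧
    ∀ n, u n = f (v n)

theorem sub_len_zero {α : Type} (σ : α → List α) (n : ℕ) : (sub σ n ([] : List α)) = [] := by
  induction n with
  | zero => rfl
  | succ n ih =>
    change sub σ n (([] : List α).flatMap σ) = []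
    simpa using ih

theorem sub_add' {α : Type} (σ : α → List α) (m : ℕ) : ∀ (n : ℕ) (u : List α),
    sub σ (n + m) u = sub σ m (sub σ n u) := by
  intro n
  induction n with
  | zero => intro u; rw [Nat.zero_add]; rfl
  | succ n ih =>
    intro u
    have : n + 1 + m = (n + m) + 1 := by omega
    rw [this]
    change sub σ (n + m) (u.flatMap σ) = sub σ m (sub σ n (u.flatMap σ))
    exact ih _

theorem exp_finrank (hg : S_GROW) (hm : S_MORPH) {β : Type} {u : ℕ → β} (h : ExpMorphic u) :
    ∃ k C : ℕ, FinRank u k C := by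
  obtain ⟨α, hα, σ, a, v, f, h1, h2, h3⟩ := h
  obtain ⟨p, n₀, hd⟩ := hg α hα σ a h1
  -- the lengths are positive
  have hpos : ∀ n, 1 ≤ (sub σ n [a]).length := by
    intro n
    by_contra h0
    have h0' : sub σ n [a] = [] := List.length_eq_zero_iff.1 (by omega)
    have h4 : ∀ m, n ≤ m → sub σ m [a] = [] := by
      intro m hm
      obtain ⟨m', rfl⟩ := Nat.exists_eq_add_of_le hm
      rw [sub_add', h0', sub_len_zero]
    -- bounded lengths
    set K : ℕ := ∑ i ∈ Finset.range n, (sub σ i [a]).length + 1 with hK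
    obtain ⟨m, hm⟩ := h1 K
    by_cases hmn : n ≤ m
    · rw [h4 m hmn] at hm
      simp at hm
    · have h5 : (sub σ m [a]).length ≤ K := by
        have := Finset.single_le_sum (f := fun i => (sub σ i [a]).length)
          (fun _ _ => Nat.zero_le _) (Finset.mem_range.2 (by omega : m < n))
        omega
      have h6 : K ≤ K * (m + 1) ^ K := Nat.le_mul_of_pos_right _ (by positivity)
      omega
  have hgr : ∀ j i, n₀ ≤ i → 2 ^ j ≤ (sub σ (i + j * p) [a]).length := by
    intro j
    induction j with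
    | zero => intro i _; simpa using hpos i
    | succ j ih =>
      intro i hi
      have h5 := ih i hi
      have h6 := hd (i + j * p) (by omega)
      have h7 : i + j * p + p = i + (j + 1) * p := by ring
      rw [h7] at h6
      rw [pow_succ]
      omega
  have hp : p ≠ 0 := by
    rintro rfl
    have h5 := hd n₀ le_rfl
    have h6 := hpos n₀
    simp at h5
    omega
  have hT : Tendsto (fun n => (sub σ n [a]).length) atTop atTop := by
    rw [tendsto_atTop]
    intro M
    filter_upwards [eventually_ge_atTop (n₀ + M * p)] with n hn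
    have h5 := hgr M (n - M * p) (by omega)
    have h6 : n - M * p + M * p = n := by omega
    rw [h6] at h5
    have := Nat.lt_two_pow_self (n := M)
    omega
  obtain ⟨k, C, hv⟩ := hm α hα σ a v ⟨h2, hT⟩ ⟨p, n₀, hd⟩
  refine ⟨k, C, ?_⟩
  have := finrank_comp f hv
  have e : (fun n => f (v n)) = u := funext fun n => (h3 n).symm
  rwa [e] at this

/-! ## numbers -/

/-- the generators -/
def Cls (b : ℕ) : Set ℝ :=
  {x | (∃ (α : Type) (_ : Finite α) (τ : α → ℚ) (w : ℕ → α),
      HasSum (fun n : ℕ => (τ (w n) : ℝ) / (b : ℝ) ^ (n + 1)) x ∧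
      ((∃ k C : ℕ, FinRank w k C) ∨ ∃ p : ℕ, ExpParse w p)) ∨
    ∃ C : ℝ, ∀ n : ℕ, 1 ≤ n → (complexity (digit b x) n : ℝ) ≤ C * n}

theorem cls_ul (h1 : S_FRD) (h2 : S_LU) {b : ℕ} (hb : 2 ≤ b) {x : ℝ} (hx : x ∈ Cls b) : UL b x := by
  rcases hx with ⟨α, hα, τ, w, hs, ⟨k, C, hw⟩ | ⟨p, hw⟩⟩ | ⟨C, hC⟩
  · exact ul_of_ud (h1 b hb α hα τ w x hs k C hw)
  · exact h2 b hb α hα τ w x hs p hw
  · refine ul_of_ud (lin b hb x C fun n hn => ?_)
    have h3 := hC n hn
    rw [complexity_digit hb] at h3
    have e : Pool.Agent.TH932.S2.dw b x = dz b x := by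
      funext n
      unfold Pool.Agent.TH932.S2.dw dz
      rw [mul_comm]
    rw [e]
    exact h3

/-- the series of the digits -/
theorem hasSum_dz {b : ℕ} (hb : 2 ≤ b) (x : ℝ) :
    HasSum (fun n : ℕ => ((((dz b x n).val : ℚ) : ℚ) : ℝ) / (b : ℝ) ^ (n + 1)) (x - ⌊x⌋) := by
  have h := hasSum_digits hb x
  have hb0 : (b : ℝ) ≠ 0 := by exact_mod_cast (by omega : b ≠ 0)
  convert h using 2 with n
  unfold Pool.Agent.TH796.AL.Strong.term
  simp only [Finset.prod_const, Finset.card_range]
  push_cast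
  rw [one_div, inv_pow, pow_succ]
  field_simp

/-- numbers whose digits have finite rank -/
theorem cls_digits {b : ℕ} (hb : 2 ≤ b) {x : ℝ} (h : (∃ k C : ℕ, FinRank (digit b x) k C) ∨
    ∃ p : ℕ, ExpParse (digit b x) p) : x ∈ Algebra.adjoin ℚ (Cls b) := by
  have : NeZero b := ⟨by omega⟩
  have e : (fun n => ((digit b x n : ℤ) : ZMod b)) = dz b x := by
    funext n
    rw [digit_eq hb]
    simp
  have h1 : x - ⌊x⌋ ∈ Algebra.adjoin ℚ (Cls b) := by
    refine Algebra.subset_adjoin (Or.inl ⟨ZMod b, inferInstance, fun a => (a.val : ℚ), dz b x,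
      hasSum_dz hb x, ?_⟩)
    rw [← e]
    rcases h with ⟨k, C, h⟩ | ⟨p, h⟩
    · exact Or.inl ⟨k, C, finrank_comp (fun z : ℤ => (z : ZMod b)) h⟩
    · exact Or.inr ⟨p, expparse_comp (fun z : ℤ => (z : ZMod b)) h⟩
  have h2 : ((⌊x⌋ : ℤ) : ℝ) ∈ Algebra.adjoin ℚ (Cls b) := by
    have : ((⌊x⌋ : ℤ) : ℝ) = algebraMap ℚ ℝ (⌊x⌋ : ℚ) := by simp
    rw [this]
    exact Subalgebra.algebraMap_mem _ _
  have h3 := Subalgebra.add_mem _ h1 h2
  rwa [sub_add_cancel] at h3

/-- independence of a large prime -/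
theorem indep_prime {p b : ℕ} (hp : p.Prime) (hb : 2 ≤ b) (h : b < p) :
    TwoB.Indep p b ∧ TwoB.Indep b p := by
  have key : ∀ k l : ℕ, p ^ k = b ^ l → k = 0 ∧ l = 0 := by
    intro k l hkl
    have hk : k = 0 := by
      by_contra hk
      have h1 : p ∣ b ^ l := by
        rw [← hkl]
        exact dvd_pow_self p hk
      have h2 := Nat.le_of_dvd (by omega) (hp.dvd_of_dvd_pow h1)
      omega
    rw [hk, pow_zero] at hkl
    refine ⟨hk, ?_⟩
    by_contra hl
    have := Nat.one_lt_pow hl (by omega : 1 < b)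
    omega
  exact ⟨key, fun k l h => (key l k h.symm).symm⟩

/-- **Linear independence, Liouville numbers included.** -/
theorem part2 (h1 : S_FRD) (h2 : S_LU) (hmain : S_MAINL) (k : ℕ) (b : Fin k → ℕ)
    (hb : ∀ i, 2 ≤ b i) (hind : ∀ i j, i ≠ j → TwoB.Indep (b i) (b j)) (y α : Fin k → ℝ)
    (hy : ∀ i, y i ∈ Algebra.adjoin ℚ (Cls (b i))) (hα : ∀ i, IsAlgebraic ℚ (α i) ∧ α i ≠ 0)
    (hsum : IsAlgebraic ℚ (∑ i, α i * y i)) (i : Fin k) : ∃ q : ℚ, y i = q := by
  have hyU : ∀ i, UL (b i) (y i) := fun i => ul_adjoin (fun x hx => cls_ul h1 h2 (hb i) hx) (hy i)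
  by_cases h0 : ∑ i, α i * y i = 0
  · exact hmain k b hb hind y α hyU hα h0 i
  · obtain ⟨p, hp1, hp⟩ := Nat.exists_infinite_primes (∑ i, b i + 1)
    have hbp : ∀ i, b i < p := fun i => by
      have := Finset.single_le_sum (f := b) (fun _ _ => Nat.zero_le _) (Finset.mem_univ i)
      omega
    have h3 := hmain (k + 1) (Fin.cons p b) (by
        intro j
        refine Fin.cases ?_ (fun j => ?_) j
        · exact hp.two_le
        · exact hb j) (by
        intro i
        refine Fin.cases ?_ (fun i => ?_) i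
        · intro j
          refine Fin.cases ?_ (fun j => ?_) j
          · intro h; exact absurd rfl h
          · intro _
            rw [Fin.cons_zero, Fin.cons_succ]
            exact (indep_prime hp (hb j) (hbp j)).1
        · intro j
          refine Fin.cases ?_ (fun j => ?_) j
          · intro _
            rw [Fin.cons_zero, Fin.cons_succ]
            exact (indep_prime hp (hb i) (hbp i)).2
          · intro hij
            rw [Fin.cons_succ, Fin.cons_succ]
            exact hind i j fun h => hij (by rw [h]))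
      (Fin.cons 1 y) (Fin.cons (-∑ i, α i * y i) α) (by
        intro i
        refine Fin.cases ?_ (fun i => ?_) i
        · rw [Fin.cons_zero, Fin.cons_zero]
          have := ul_const p 1
          rwa [Rat.cast_one] at this
        · rw [Fin.cons_succ, Fin.cons_succ]
          exact hyU i) (by
        intro i
        refine Fin.cases ?_ (fun i => ?_) i
        · rw [Fin.cons_zero]
          exact ⟨hsum.neg, neg_ne_zero.2 h0⟩
        · rw [Fin.cons_succ]
          exact hα i) (by
        rw [Fin.sum_univ_succ]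
        simp only [Fin.cons_zero, Fin.cons_succ]
        ring) i.succ
    rwa [Fin.cons_succ] at h3

/-- one number in two bases -/
theorem two_bases (h1 : S_FRD) (h2 : S_LU) (hmain : S_MAINL) {a b : ℕ} (ha : 2 ≤ a) (hb : 2 ≤ b)
    (hab : TwoB.Indep a b) {x : ℝ} (hx : x ∈ Algebra.adjoin ℚ (Cls a))
    (hy : x ∈ Algebra.adjoin ℚ (Cls b)) : ∃ q : ℚ, x = q := by
  have h3 := part2 h1 h2 hmain 2 ![a, b] (by
      intro i
      fin_cases i
      · exact ha
      · exact hb) (by
      intro i j hij
      fin_cases i <;> fin_cases j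
      · exact absurd rfl hij
      · exact hab
      · exact fun k l h => (hab l k h.symm).symm
      · exact absurd rfl hij) ![x, x] ![1, -1] (by
      intro i
      fin_cases i
      · exact hx
      · exact hy) (by
      intro i
      fin_cases i
      · exact ⟨isAlgebraic_one, one_ne_zero⟩
      · exact ⟨isAlgebraic_one.neg, neg_ne_zero.2 one_ne_zero⟩) (by
      simp only [Fin.sum_univ_two, Matrix.cons_val_zero, Matrix.cons_val_one]
      have : (1 : ℝ) * x + -1 * x = 0 := by ring
      rw [this]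
      exact isAlgebraic_zero) 0
  exact h3

end Pool.Agent.L0h79.FR
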