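import Mathlib
import Pool.Agent.L0h79.FR.Defs

set_option autoImplicit false
set_option linter.all false

/-!
# FR: consequences of `S_CORE` and `S_LAT`, `S_GCD`
-/

namespace Pool.Agent.L0h79.FR

open Filter Topology Pool.Agent.TH932.Abs Pool.Agent.TH932.Germs Pool.Agent.TH932.Chi
open Pool.Agent.TH796.AL

theorem frd (h : S_CORE) : S_FRD := by
  intro b hb α hα τ w x hx k C hw m B e hbe
  obtain ⟨C', hC', h1⟩ := h b hb α hα τ w x hx k C hw
  refine ⟨C', k, hC', fun N _ hL E => ?_⟩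
  obtain ⟨z, hz1, hz2, hz3⟩ := h1 m B e hbe N hL
  obtain ⟨P, s, hP, hs, hxs⟩ := hz3 E
  exact ⟨Fin k, inferInstance, z, by simp, hz1, hz2, P, s, hP, hs, hxs⟩

theorem rv (h : S_CORE) : S_RV := by
  intro b hb α hα τ w x hx k C hw m B e hbe N hL
  obtain ⟨C', hC', h1⟩ := h b hb α hα τ w x hx k C hw
  obtain ⟨z, hz1, hz2, hz3⟩ := h1 m B e hbe N hL
  exact ⟨Fin k, inferInstance, z, C', hz1, fun j => ⟨_, hz2 j⟩, hz3⟩

end Pool.Agent.L0h79.FR
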