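import Mathlib
import Pool.Agent.L0h79.FR.Fin
import Pool.Agent.L0h79.FR.Cor
import Pool.Agent.L0h79.FR.KPQ
import Pool.Agent.L0h19.FR.Dir
import Pool.Agent.L0h19.FR.Val
import Pool.Agent.L0h57.FR.Prim
import Pool.Agent.L0h57.FR.Tube
import Pool.Agent.L0h59.FR.Rel
import Pool.Agent.L0h84.FR.LINK
import Pool.Agent.L0h84.FR.MORPH
import Pool.Agent.L0h97.FR.TPOLY
import Pool.Agent.L0h97.FR.GROW
import Pool.Agent.L0h97.FR.HGT

set_option autoImplicit false
set_option linter.all false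

/-!
# FR: assembly
-/

namespace Pool.Agent.L0h79.FR

theorem prim_thm : S_PRIM := Pool.Agent.L0h57.FR.prim Pool.Agent.L0h57.FR.lat Pool.Agent.L0h57.FR.gcd
theorem hgt_thm : S_HGT :=
  Pool.Agent.L0h97.FR.Hgt.hgt Pool.Agent.L0h57.FR.newt Pool.Agent.L0h84.FR.LINK.t_LINK
theorem rel_thm : S_REL := Pool.Agent.L0h59.FR.rel prim_thm hgt_thm
theorem core_thm : S_CORE := Pool.Agent.L0h19.FR.core Pool.Agent.L0h19.FR.val_thm
  Pool.Agent.L0h19.FR.shift_thm
theorem frd_thm : S_FRD := frd core_thm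
theorem rv_thm : S_RV := rv core_thm
theorem morph_thm : S_MORPH := Pool.Agent.L0h84.FR.MORPH.t_MORPH
theorem grow_thm : S_GROW := Pool.Agent.L0h97.FR.Grow.grow Pool.Agent.L0h97.FR.TPoly.tpoly
theorem glue_thm : S_GLUE := Pool.Agent.L0h57.FR.glue
theorem tube_thm : S_TUBE := Pool.Agent.L0h57.FR.tube

end Pool.Agent.L0h79.FR
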