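import Mathlib
import Pool.Agent.L0h79.FR.Defs

set_option autoImplicit false
set_option linter.all false

/-!
# FR-EVD, IND
-/

namespace Pool.Agent.L0h79.FR

open Filter Topology Pool.Agent.TH932.Abs Pool.Agent.TH932.Germs Pool.Agent.TH932.Chi
open Pool.Agent.TH932.Words Pool.Agent.TH796.AL Pool.Agent.TH796.AL.Lin

theorem ch_SS {m : ℕ} (B : Base m) {L : ℕ → ℝ} (hL : Tendsto L atTop atTop) {c : ℝ}
    (g : Fin m → ℝ) (hg : ∀ u, |lv B u g| ≤ c) : ch B hL g ∈ SS L (RS B) (-c) := by
  rw [ch_eq, mem_SS]
  intro ε hε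
  have h1 : ∀ᶠ n in (UU : Filter ℕ), ∀ i, |((⌊ell hL (g i) n⌋ : ℤ) : ℝ) - g i * L n|
      ≤ ε / Real.log (B.P i) * L n := by
    rw [Filter.eventually_all]
    intro i
    have := B.log_pos i
    exact ev_of_atTop (fl_near hL (g i) (by positivity))
  filter_upwards [h1, L_nonneg hL] with n h1 h3
  refine ⟨1, 1, fun i => ⌊ell hL (g i) n⌋, one_ne_zero, ?_, by simp, fun i => ?_⟩
  · simp only [Int.cast_one, abs_one]
    exact Real.one_le_exp (by positivity)
  · have hlp := B.log_pos i
    have h4 := (abs_le.1 (h1 i)).1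
    have h5 : (g i * L n - ε / Real.log (B.P i) * L n) * Real.log (B.P i)
        ≤ ((⌊ell hL (g i) n⌋ : ℤ) : ℝ) * Real.log (B.P i) := by
      gcongr; linarith
    have h6 : (g i * L n - ε / Real.log (B.P i) * L n) * Real.log (B.P i)
        = (g i * Real.log (B.P i) - ε) * L n := by
      field_simp
    have h7 : -c ≤ g i * Real.log (B.P i) := (abs_le.1 (hg (some i))).1
    nlinarith

theorem evd (h : S_KPQ) : S_EVD := by
  intro m B L hL c hc
  refine ⟨fun g hg => ch_SS B hL g hg, fun D hD => ⟨fun v => ?_, ?_, fun hD0 hcon => ?_⟩⟩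
  · rw [ev_sum]
    refine Finset.sum_induction _ (fun a => a ∈ Sv B L v (-c))
      (fun _ _ => (filt_v hL v).add_mem) ((filt_v hL v).zero_mem _) fun g hg => ?_
    have h1 : ((D.coeff g : KK L hL) : GG) * ch B hL g ∈ Sv B L v (lv B v g) := by
      have := (filt_v (B := B) hL v).mul_mem ((filt_v (B := B) hL v).alg_mem (D.coeff g))
        (ch_mem (B := B) hL v g)
      rw [zero_add] at this
      exact this
    refine (filt_v hL v).anti ?_ h1
    exact (abs_le.1 (hD g (Finsupp.mem_support_iff.1 hg) v)).1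
  · rw [ev_sum]
    refine Finset.sum_induction _ (fun a => a ∈ SS L (RS B) (-c))
      (fun _ _ => (filt_S hL).add_mem) ((filt_S hL).zero_mem _) fun g hg => ?_
    have := (filt_S (B := B) hL).mul_mem ((filt_S (B := B) hL).alg_mem (D.coeff g))
      (ch_SS B hL g (hD g (Finsupp.mem_support_iff.1 hg)))
    rw [zero_add] at this
    exact this
  · obtain ⟨g, hg⟩ : ∃ g, D.coeff g ≠ 0 := by
      by_contra hc
      push Not at hc
      apply hD0
      apply AddMonoidAlgebra.coeff_injective
      ext x
      have := hc x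
      simp [this]
    have h2 := h m B L hL ⊥ inferInstance Unit inferInstance (fun _ => 1) 0 le_rfl (by
        intro A hA j
        have h1 : ev B hL (A ()) = 0 := by simpa using hA
        exact su_thm m B L hL _ h1) (by
        intro v _
        have h1 := (filt_v (B := B) hL v).alg_mem 1
        rw [map_one] at h1
        rw [neg_zero]
        exact h1) (by
        intro _
        have := Sint.alg (B := B) hL 1
        simpa using this) (fun _ => incR hL ⊥ D) (c + 1) (by
        simp only [Finset.univ_unique, Finset.sum_singleton, map_one, mul_one]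
        rw [evA_incR]
        exact hcon) () g (by
        rw [incR_coeff]
        intro h0
        apply hg
        have h3 := congrArg (fun x : KA ⊥ hL => (x : HR)) h0
        simp only [inc_coe] at h3
        have h4 : rho (D.coeff g : GG) = rho 0 := by rw [h3, map_zero]; rfl
        exact Subtype.ext (rho_injective h4))
    have h3 := (abs_le.1 (hD g hg none)).2
    simp only [mul_zero, zero_mul, add_zero] at h2
    linarith

/-! ## IND -/

theorem bdd_mul {m : ℕ} {B : Base m} {L : ℕ → ℝ} {hL : Tendsto L atTop atTop} {c c' : ℝ}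
    {f g : Rg m hL} (hf : Bdd B c f) (hg : Bdd B c' g) : Bdd B (c + c') (f * g) := by
  intro x hx v
  obtain ⟨a, b, ha, hb, rfl⟩ := Dir.supp_mul hL hx
  rw [lv_add]
  exact (abs_add_le _ _).trans (add_le_add (hf a ha v) (hg b hb v))

theorem bdd_mono {m : ℕ} {B : Base m} {L : ℕ → ℝ} {hL : Tendsto L atTop atTop} {c c' : ℝ}
    {f : Rg m hL} (hf : Bdd B c f) (h : c ≤ c') : Bdd B c' f := fun x hx v => (hf x hx v).trans h

theorem bdd_one {m : ℕ} {B : Base m} {L : ℕ → ℝ} {hL : Tendsto L atTop atTop} :
    Bdd B 0 (1 : Rg m hL) := by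
  intro x hx v
  have : x = 0 := by
    by_contra hne
    rw [AddMonoidAlgebra.one_def, AddMonoidAlgebra.coeff_single] at hx
    exact hx (Finsupp.single_eq_of_ne hne)
  rw [this, lv_zero, abs_zero]

theorem bdd_zero {m : ℕ} {B : Base m} {L : ℕ → ℝ} {hL : Tendsto L atTop atTop} {c : ℝ} :
    Bdd B c (0 : Rg m hL) := by
  intro x hx v
  exact absurd (by simp) hx

theorem bdd_prod {m : ℕ} {B : Base m} {L : ℕ → ℝ} {hL : Tendsto L atTop atTop} {ι : Type}
    (s : Finset ι) (f : ι → Rg m hL) {c : ℝ} (h : ∀ i ∈ s, Bdd B c (f i)) :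
    Bdd B (s.card * c) (∏ i ∈ s, f i) := by
  classical
  induction s using Finset.induction_on with
  | empty =>
    rw [Finset.prod_empty, Finset.card_empty, Nat.cast_zero, zero_mul]
    exact bdd_one
  | insert a s ha ih =>
    rw [Finset.prod_insert ha, Finset.card_insert_of_notMem ha]
    refine bdd_mono (bdd_mul (h a (Finset.mem_insert_self _ _))
      (ih fun i hi => h i (Finset.mem_insert_of_mem hi))) (le_of_eq ?_)
    push_cast
    ring

theorem ind (h : S_REL) : S_IND := by
  classical
  intro m B L hL Z _ z C hC hz1 hz2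
  let _ : Algebra (Rg m hL) GG := (ev B hL).toAlgebra
  have hsm : ∀ (a : Rg m hL) (g : GG), a • g = ev B hL a * g := fun a g => rfl
  obtain ⟨s, hs, hmax⟩ := exists_maximal_linearIndepOn (Rg m hL) z
  have : Fintype s := Fintype.ofFinite s
  have hindep : ∀ A : s → Rg m hL, ∑ j, ev B hL (A j) * z j = 0 → ∀ j, A j = 0 := by
    intro A hA
    have h3 : LinearIndependent (Rg m hL) (fun j : s => z j) := hs
    exact Fintype.linearIndependent_iff.1 h3 A (by
      rw [← hA]
      exact Finset.sum_congr rfl fun j _ => hsm _ _)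
  have hcard : Fintype.card s ≤ Fintype.card Z :=
    Fintype.card_le_of_injective _ Subtype.val_injective
  set c0 : ℝ := 2 * (m + 1) * C * (Fintype.card Z + 1) with hc0
  have hc00 : 0 ≤ c0 := by positivity
  have h1 : ∀ i, ∃ a : Rg m hL, a ≠ 0 ∧ Bdd B c0 a ∧ ∃ c : s → Rg m hL, (∀ j, Bdd B c0 (c j)) ∧
      ev B hL a * z i = ∑ j, ev B hL (c j) * z j := by
    intro i
    by_cases hi : i ∈ s
    · refine ⟨1, one_ne_zero, bdd_mono bdd_one hc00,
        fun j => if (j : Z) = i then 1 else 0, fun j => ?_, ?_⟩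
      · by_cases hj : (j : Z) = i
        · simp only [if_pos hj]
          exact bdd_mono bdd_one hc00
        · simp only [if_neg hj]
          exact bdd_zero
      · rw [Finset.sum_eq_single (⟨i, hi⟩ : s)]
        · simp
        · intro b _ hb
          have hb' : (b : Z) ≠ i := fun h => hb (Subtype.ext h)
          simp only [if_neg hb', map_zero, zero_mul]
        · intro h
          exact absurd (Finset.mem_univ _) h
    · obtain ⟨a, ha, h2⟩ := hmax i hi
      rw [Set.image_eq_range] at h2
      obtain ⟨c, hc⟩ := (Submodule.mem_span_range_iff_exists_fun (Rg m hL)).1 h2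
      obtain ⟨D, H, hD0, hDH, hD, hH⟩ := h m B L hL s inferInstance (fun j => z j) (z i) C hC
        hindep ⟨a, c, ha, hc.symm⟩ (fun v j => hz1 v j) (fun v => hz1 v i) (fun j => hz2 j)
        (hz2 i)
      have hle : 2 * ((m : ℝ) + 1) * C * (Fintype.card s + 1) ≤ c0 := by
        rw [hc0]
        have : (Fintype.card s : ℝ) ≤ Fintype.card Z := by exact_mod_cast hcard
        gcongr
      exact ⟨D, hD0, bdd_mono hD hle, H, fun j => bdd_mono (hH j) hle, hDH⟩
  choose a ha hab c hcb hc using h1
  have hfin : ∀ k : ℕ, k ≤ Fintype.card Z + 1 →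
      (k : ℝ) * c0 ≤ 2 * (m + 1) * C * (Fintype.card Z + 1) ^ 2 := by
    intro k hk
    have : (k : ℝ) ≤ Fintype.card Z + 1 := by exact_mod_cast hk
    calc (k : ℝ) * c0 ≤ (Fintype.card Z + 1) * c0 := by gcongr
      _ = _ := by rw [hc0]; ring
  refine ⟨s, inferInstance, fun j => (j : Z), ∏ i, a i,
    fun i j => (∏ i' ∈ Finset.univ.erase i, a i') * c i j, hcard, hindep,
    Finset.prod_ne_zero_iff.2 fun i _ => ha i, ?_, ?_, ?_⟩
  · intro i
    rw [← Finset.mul_prod_erase _ _ (Finset.mem_univ i), map_mul, mul_comm (ev B hL (a i)),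
      mul_assoc, hc i, Finset.mul_sum]
    refine Finset.sum_congr rfl fun j _ => ?_
    rw [map_mul, mul_assoc]
  · refine bdd_mono (bdd_prod Finset.univ a fun i _ => hab i) (hfin _ ?_)
    rw [Finset.card_univ]
    omega
  · intro i j
    refine bdd_mono (bdd_mul (bdd_prod (Finset.univ.erase i) a fun i _ => hab i) (hcb i j))
      (le_trans (le_of_eq ?_) (hfin ((Finset.univ.erase i).card + 1) ?_))
    · push_cast
      ring
    · rw [Finset.card_erase_of_mem (Finset.mem_univ i), Finset.card_univ]
      omega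

end Pool.Agent.L0h79.FR
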