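import Mathlib
import Pool.Agent.L0h79.FR.UL

set_option autoImplicit false
set_option linter.all false

/-!
# FR: Lempel-Ziv complexity, the main theorem
-/

namespace Pool.Agent.L0h79.FR

open Filter Topology Pool.Agent.TH932.Abs Pool.Agent.TH932.Germs Pool.Agent.TH932.Chi
open Pool.Agent.TH932.Words Pool.Agent.TH796.AL

/-- the sums `∑ τ(w_n) / b^(n+1)`, for words `w` over a finite alphabet whose prefixes of length
`M ∈ S` have Lempel-Ziv complexity `O (log M)` -/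
def LZNum (S : Set ℕ) (b : ℕ) (x : ℝ) : Prop :=
  ∃ (α : Type) (_ : Finite α) (τ : α → ℚ) (w : ℕ → α) (K : ℝ),
    HasSum (fun n : ℕ => (τ (w n) : ℝ) / (b : ℝ) ^ (n + 1)) x ∧
    ∀ M ∈ S, (LZ w M : ℝ) ≤ K * (1 + Real.log M)

def S_LM : Prop := ∀ (S : Set ℕ) (_ : S.Infinite) (k : ℕ) (b : Fin k → ℕ), (∀ i, 2 ≤ b i) →
  (∀ i j, i ≠ j → TwoB.Indep (b i) (b j)) → ∀ (y α : Fin k → ℝ),
  (∀ i, y i ∈ Algebra.adjoin ℚ {x | LZNum S (b i) x ∨ UL (b i) x}) →
  (∀ i, IsAlgebraic ℚ (α i) ∧ α i ≠ 0) → ∑ i, α i * y i = 0 →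
  ∀ i, (∃ q : ℚ, y i = q) ∨ Liouville (y i)

/-- elements of an algebra as polynomials in finitely many elements -/
theorem adjoin_poly {G : Set ℝ} {y : ℝ} (hy : y ∈ Algebra.adjoin ℚ G) :
    ∃ (σ : Type) (_ : Fintype σ) (x : σ → ℝ) (f : MvPolynomial σ ℚ),
      (∀ j, x j ∈ G) ∧ y = MvPolynomial.aeval x f := by
  classical
  have h1 : y ∈ Algebra.adjoin ℚ (Set.range (Subtype.val : G → ℝ)) := by
    rwa [Subtype.range_coe]
  rw [Algebra.adjoin_range_eq_range_aeval] at h1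
  obtain ⟨f, hf⟩ := h1
  obtain ⟨s, q, rfl⟩ := MvPolynomial.exists_finset_rename f
  refine ⟨{x // x ∈ s}, inferInstance, fun j => ((j : G) : ℝ), q, fun j => (j : G).2, ?_⟩
  rw [← hf]
  change (MvPolynomial.aeval (Subtype.val : G → ℝ)) (MvPolynomial.rename Subtype.val q) = _
  rw [MvPolynomial.aeval_rename]
  rfl

/-- numbers which are not Liouville numbers -/
theorem not_liouville {y : ℝ} (hy : Irrational y) (hl : ¬ Liouville y) :
    ∃ ω : ℕ, ∀ q : ℚ, 1 / (2 * (q.den : ℝ)) ^ ω ≤ |y - q| := by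
  unfold Liouville at hl
  push Not at hl
  obtain ⟨ω, h⟩ := hl
  refine ⟨ω, fun q => ?_⟩
  have hd := q.den_pos
  have h1 := h (2 * q.num) (2 * q.den) (by omega) (by
    intro h3
    exact hy ⟨(2 * q.num : ℤ) / (2 * q.den : ℤ), by rw [h3]; push_cast; rfl⟩)
  have e1 : (((2 * q.num : ℤ) : ℝ) / ((2 * q.den : ℤ) : ℝ)) = (q : ℝ) := by
    have h4 : (q : ℝ) = (q.num : ℝ) / q.den := by
      exact_mod_cast (Rat.num_div_den q).symm
    rw [h4]
    have : (q.den : ℝ) ≠ 0 := by positivity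
    push_cast
    field_simp
  rw [e1] at h1
  push_cast at h1
  exact h1

theorem lm (hdir : S_DIR) (hlp : S_LP) (hld : S_LD) : S_LM := by
  classical
  intro S hS k b hb hind y α hy hα hsum i0
  by_cases hirr : Irrational (y i0)
  swap
  · left
    unfold Irrational at hirr
    rw [not_not] at hirr
    obtain ⟨q, hq⟩ := hirr
    exact ⟨q, hq.symm⟩
  right
  by_contra hliou
  obtain ⟨ω, hω⟩ := not_liouville hirr hliou
  obtain ⟨m, B, e, hbe⟩ := base k b hb
  choose σ fσ x f hx hyf using fun i => adjoin_poly (hy i)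
  choose D hD using fun i => dat_poly (f i)
  obtain ⟨κ, hκ, hdir⟩ := hdir m B k (fun i => Submodule.span ℝ {fun j => (e i j : ℝ)})
    (fun i j hij => TwoB.disjoint_of_indep B (hind i j hij) (e i) (e j) (hbe i) (hbe j))
  -- the words
  set T1 : Type := {t : Σ i, σ i // LZNum S (b t.1) (x t.1 t.2)} with hT1
  choose al fal τ w K hsum1 hK using fun t : T1 => t.2
  set k' : ℕ := Fintype.card T1 with hk'
  set en : T1 ≃ Fin k' := Fintype.equivFin T1 with hen
  obtain ⟨A1, hA1, hLP⟩ := hlp k' (fun l => al (en.symm l)) (fun l => w (en.symm l))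
    (2 * ∑ t, |K t|) (by
      rw [Filter.frequently_atTop]
      intro M0
      obtain ⟨M, hMS, hM⟩ := hS.exists_gt (max M0 3)
      refine ⟨M, ((le_max_left _ _).trans hM.le), fun l => ?_⟩
      have h1 := hK (en.symm l) M hMS
      have h2 : 1 ≤ Real.log M := by
        have h3 : (3 : ℝ) ≤ M := by exact_mod_cast (le_max_right M0 3).trans hM.le
        rw [Real.le_log_iff_exp_le (by linarith)]
        have := Real.exp_one_lt_d9
        linarith
      have h4 : |K (en.symm l)| ≤ ∑ t, |K t| :=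
        Finset.single_le_sum (f := fun t => |K t|) (fun _ _ => abs_nonneg _) (Finset.mem_univ _)
      calc (LZ (w (en.symm l)) M : ℝ) ≤ K (en.symm l) * (1 + Real.log M) := h1
        _ ≤ |K (en.symm l)| * (1 + Real.log M) := by gcongr; exact le_abs_self _
        _ ≤ (∑ t, |K t|) * (2 * Real.log M) := by gcongr; linarith
        _ = _ := by ring)
  -- constants for the other numbers
  set T : Type := Σ i, σ i with hT
  have hUL : ∀ t : T, ∃ (C A : ℝ) (d : ℕ), 0 ≤ C ∧ 0 ≤ A ∧ (¬ LZNum S (b t.1) (x t.1 t.2) →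
      ∀ E : ℕ, ∃ r : ℕ, (r : ℝ) ≤ A * (1 + Real.log (E + 1)) ^ d ∧
      ∀ (N : ℕ → ℕ) (_ : ∀ n, 2 ≤ N n) (hL : Tendsto (fun n => (N n : ℝ)) atTop atTop),
        Dat B hL (Submodule.span ℝ {fun i => (e t.1 i : ℝ)}) C r E (x t.1 t.2)) := by
    intro t
    by_cases ht : LZNum S (b t.1) (x t.1 t.2)
    · exact ⟨0, 0, 0, le_rfl, le_rfl, fun h => absurd ht h⟩
    · rcases hx t.1 t.2 with h | h
      · exact absurd h ht
      · obtain ⟨C, A, d, hC, hA, h1⟩ := h m B (e t.1) (hbe t.1)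
        exact ⟨C, A, d, hC, hA, fun _ => h1⟩
  choose C A d hC0 hA0 hULd using hUL
  set CC : ℝ := ∑ t, C t + ∑ i, Real.log (b i) with hCC
  have hlogb : ∀ i, 0 ≤ Real.log (b i) := fun i =>
    Real.log_nonneg (by have := hb i; exact_mod_cast (by omega : 1 ≤ b i))
  have hCt : ∀ t, C t ≤ CC := fun t => by
    have h1 := Finset.single_le_sum (f := C) (fun j _ => hC0 j) (Finset.mem_univ t)
    have h2 : 0 ≤ ∑ i, Real.log (b i) := Finset.sum_nonneg fun i _ => hlogb i
    linarith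
  have hCb : ∀ i, Real.log (b i) ≤ CC := fun i => by
    have h1 := Finset.single_le_sum (f := fun i => Real.log (b i)) (fun j _ => hlogb j)
      (Finset.mem_univ i)
    have h2 : 0 ≤ ∑ t, C t := Finset.sum_nonneg fun i _ => hC0 i
    linarith
  have hCC0 : 0 ≤ CC := add_nonneg (Finset.sum_nonneg fun i _ => hC0 i)
    (Finset.sum_nonneg fun i _ => hlogb i)
  set AA : ℝ := ∑ t : T, (A t + (4 * A1 + 2)) with hAA
  have hAA0 : 0 ≤ AA := Finset.sum_nonneg fun t _ => by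
    have := hA0 t
    linarith
  set dd : ℕ := ∑ t, d t + 1 with hdd
  have hdt : ∀ t, d t ≤ dd := fun t =>
    (Finset.single_le_sum (f := d) (fun j _ => Nat.zero_le _) (Finset.mem_univ t)).trans
      (Nat.le_succ _)
  set DD : ℕ := ∑ i, D i with hDD
  have hDi : ∀ i, D i ≤ DD := fun i =>
    Finset.single_le_sum (f := D) (fun j _ => Nat.zero_le _) (Finset.mem_univ i)
  -- the precision
  set H0 : ℝ := κ * (DD * CC + 1) * (4 * ((AA + 2) ^ DD) ^ 2) with hH0
  have hH00 : 0 ≤ H0 := by positivity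
  obtain ⟨E0, hE0⟩ := polylog ((ω + 1) * H0) (dd * DD * 2) (DD + ω + 1)
  obtain ⟨Et, hEt1, hEt2⟩ : ∃ Et : ℕ, E0 ≤ Et ∧ DD ≤ Et := ⟨max E0 DD, le_max_left _ _, le_max_right _ _⟩
  have hE := hE0 Et hEt1
  obtain ⟨E, rfl⟩ := Nat.exists_eq_add_of_le hEt2
  have hX := one_le_log (DD + E)
  set X := 1 + Real.log (((DD + E : ℕ) : ℝ) + 1) with hXdef
  -- scales
  set E' : ℕ := 2 * (DD + E + 1) with hE'
  obtain ⟨N, r1, tt, hr1, hN2, hNT, hph⟩ := hLP E' (by omega)
  have hL : Tendsto (fun n => (N n : ℝ)) atTop atTop := tendsto_natCast_atTop_atTop.comp hNT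
  have hr1' : (r1 : ℝ) ≤ A1 * (2 * X) := by
    refine hr1.trans ?_
    gcongr
    have h1 : (0 : ℝ) < ((DD + E : ℕ) : ℝ) + 1 := by positivity
    have h2 : ((E' : ℕ) : ℝ) = 2 * (((DD + E : ℕ) : ℝ) + 1) := by rw [hE']; push_cast; ring
    rw [h2, Real.log_mul (by norm_num) h1.ne']
    have h3 : Real.log 2 ≤ 1 := by
      have := Real.log_two_lt_d9
      linarith
    rw [hXdef] at hX ⊢
    linarith
  have hdat : ∀ t : T, ∃ r : ℕ, (r : ℝ) ≤ (A t + (4 * A1 + 2)) * X ^ dd ∧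
      Dat B hL (Submodule.span ℝ {fun i => (e t.1 i : ℝ)}) CC r ((DD + E : ℕ) : ℝ)
        (x t.1 t.2) := by
    intro t
    have hXd : 1 ≤ X ^ dd := one_le_pow₀ hX
    by_cases ht : LZNum S (b t.1) (x t.1 t.2)
    · set t1 : T1 := ⟨t, ht⟩ with ht1
      have h1 := hld (b t.1) (hb t.1) (al t1) (fal t1) (τ t1) (w t1) (x t.1 t.2) (hsum1 t1) m B
        (e t.1) (hbe t.1) N hL r1 E' (tt (en t1)) (fun n => by
          have := hph (en t1) n
          rwa [Equiv.symm_apply_apply] at this) ((DD + E : ℕ) : ℝ) (by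
          have h2 : Real.log 2 ≤ Real.log (b t.1) :=
            Real.log_le_log (by norm_num) (by exact_mod_cast hb t.1)
          have h3 := Real.log_two_gt_d9
          have h4 : ((E' : ℕ) : ℝ) = 2 * (((DD + E : ℕ) : ℝ) + 1) := by rw [hE']; push_cast; ring
          rw [h4]
          have h5 : (0 : ℝ) ≤ ((DD + E : ℕ) : ℝ) := Nat.cast_nonneg _
          nlinarith)
      refine ⟨2 * r1 + 2, ?_, dat_mono hL (hCb t.1) le_rfl h1⟩
      push_cast
      have h6 : X ≤ X ^ dd := by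
        calc X = X ^ 1 := (pow_one X).symm
          _ ≤ X ^ dd := by
            gcongr
            omega
      have h7 := hA0 t
      calc (2 : ℝ) * r1 + 2 ≤ 2 * (A1 * (2 * X)) + 2 * X := by linarith
        _ = (4 * A1 + 2) * X := by ring
        _ ≤ (A t + (4 * A1 + 2)) * X ^ dd := by
          refine mul_le_mul (by linarith) h6 (by linarith) (by linarith)
    · obtain ⟨r, hr, h1⟩ := hULd t ht (DD + E)
      refine ⟨r, hr.trans ?_, dat_mono hL (hCt t) le_rfl (h1 N hN2 hL)⟩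
      have h7 := hA0 t
      gcongr
      · linarith
      · exact hdt t
  choose r hr hdat using hdat
  set rr : ℕ := ∑ t, r t with hrr
  have hrt : ∀ t, r t ≤ rr := fun t =>
    Finset.single_le_sum (f := r) (fun j _ => Nat.zero_le _) (Finset.mem_univ t)
  have hXdd : 1 ≤ X ^ dd := one_le_pow₀ hX
  have hrr2 : (rr : ℝ) ≤ AA * X ^ dd := by
    rw [hrr]
    push_cast
    rw [hAA, Finset.sum_mul]
    exact Finset.sum_le_sum fun t _ => hr t
  -- the numbers `y i`
  have hdy : ∀ i, Dat B hL (Submodule.span ℝ {fun j => (e i j : ℝ)}) (DD * CC) ((rr + 2) ^ DD) E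
      (y i) := by
    intro i
    have h1 := hD i m B (fun n => (N n : ℝ)) hL (Submodule.span ℝ {fun j => (e i j : ℝ)}) (x i) CC
      hCC0 rr E (Nat.cast_nonneg E) (fun j => by
        refine dat_monoE hL ?_ (dat_mono hL le_rfl (hrt ⟨i, j⟩) (hdat ⟨i, j⟩))
        push_cast
        have : (D i : ℝ) ≤ DD := by exact_mod_cast hDi i
        linarith)
    rw [← hyf i] at h1
    refine dat_mono hL ?_ ?_ h1
    · have : (D i : ℝ) ≤ DD := by exact_mod_cast hDi i
      gcongr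
    · exact Nat.pow_le_pow_right (by omega) (hDi i)
  obtain ⟨g, hg1, hg2⟩ := hdir (DD * CC) (by positivity) ((rr + 2) ^ DD) (fun n => (N n : ℝ)) hL y α
    hα E hdy hsum i0
  set H : ℝ := κ * (DD * CC + 1) * ((((rr + 2) ^ DD : ℕ) : ℝ) + 1) ^ 2 with hH
  have hHH : H ≤ H0 * X ^ (dd * DD * 2) := by
    have h1 : (((rr + 2) ^ DD : ℕ) : ℝ) + 1 ≤ 2 * ((AA + 2) ^ DD * X ^ (dd * DD)) := by
      have h2 : ((rr : ℝ) + 2) ≤ (AA + 2) * X ^ dd := by nlinarith
      have h3 : ((rr : ℝ) + 2) ^ DD ≤ (AA + 2) ^ DD * X ^ (dd * DD) := by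
        rw [pow_mul, ← mul_pow]
        gcongr
      have h4 : (1 : ℝ) ≤ ((rr : ℝ) + 2) ^ DD := one_le_pow₀ (by
        have : (0 : ℝ) ≤ rr := Nat.cast_nonneg _
        linarith)
      push_cast
      linarith
    rw [hH, hH0]
    calc κ * (DD * CC + 1) * ((((rr + 2) ^ DD : ℕ) : ℝ) + 1) ^ 2
        ≤ κ * (DD * CC + 1) * (2 * ((AA + 2) ^ DD * X ^ (dd * DD))) ^ 2 := by gcongr
      _ = _ := by rw [mul_pow, mul_pow, ← pow_mul X]; ring
  have hEH : (ω + 1) * H + ω + 1 ≤ E := by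
    have h1 : (ω + 1) * H ≤ (ω + 1) * H0 * X ^ (dd * DD * 2) := by
      rw [mul_assoc]
      gcongr
    push_cast at hE
    linarith
  have hH00 : 0 ≤ H := by positivity
  obtain ⟨n, h1, h2, h3⟩ := (hg1.and (hg2.and (ev_of_atTop (hL.eventually_ge_atTop 1)))).exists
  have hω1 := hω (g n)
  have hd := (g n).den_pos
  have hdr : (0 : ℝ) < (g n).den := by exact_mod_cast hd
  have h4 : (2 * ((g n).den : ℝ)) ^ ω ≤ Real.exp (ω * ((H + 1) * N n)) := by
    rw [Real.exp_nat_mul]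
    gcongr
    have h5 : (2 : ℝ) ≤ Real.exp (N n) := by
      have := Real.add_one_le_exp (N n : ℝ)
      linarith
    calc 2 * ((g n).den : ℝ) ≤ Real.exp (N n) * Real.exp (H * N n) := by gcongr
      _ = _ := by rw [← Real.exp_add]; ring_nf
  have h5 : Real.exp (-(ω * ((H + 1) * N n))) ≤ |y i0 - g n| := by
    refine le_trans ?_ hω1
    rw [Real.exp_neg, one_div]
    exact inv_anti₀ (by positivity) h4
  have h6 := h5.trans h2
  rw [Real.exp_le_exp] at h6
  have h7 : (0 : ℝ) < N n := by linarith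
  have h8 : (E - H) * N n ≤ (ω * (H + 1)) * N n := by linarith
  have h9 := le_of_mul_le_mul_right h8 h7
  linarith

end Pool.Agent.L0h79.FR
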