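import Mathlib
import Pool.Agent.L0h79.FR.LM
import Pool.Agent.L0h79.FR.Fin

set_option autoImplicit false
set_option linter.all false

/-!
# FR: Lempel-Ziv complexity of digits
-/

namespace Pool.Agent.L0h79.FR

open Filter Topology Pool.Agent.TH932.Abs Pool.Agent.TH932.Germs Pool.Agent.TH932.Chi
open Pool.Agent.TH932.Words Pool.Agent.TH796.AL Pool.Agent.TH796.AL.Final

theorem parse_inj {α β : Type} {f : α → β} (hf : Function.Injective f) (w : ℕ → α) (N r : ℕ) :
    Parse (fun n => f (w n)) N r ↔ Parse w N r := by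
  constructor
  · rintro ⟨t, h0, h1, h2⟩
    refine ⟨t, h0, h1, fun i hi => ⟨(h2 i hi).1, ?_⟩⟩
    rcases (h2 i hi).2 with h | ⟨δ, g1, g2, g3⟩
    · exact Or.inl h
    · exact Or.inr ⟨δ, g1, g2, fun j hj hj' => hf (g3 j hj hj')⟩
  · rintro ⟨t, h0, h1, h2⟩
    refine ⟨t, h0, h1, fun i hi => ⟨(h2 i hi).1, ?_⟩⟩
    rcases (h2 i hi).2 with h | ⟨δ, g1, g2, g3⟩
    · exact Or.inl h
    · exact Or.inr ⟨δ, g1, g2, fun j hj hj' => congrArg f (g3 j hj hj')⟩

theorem lz_inj {α β : Type} {f : α → β} (hf : Function.Injective f) (w : ℕ → α) (N : ℕ) :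
    LZ (fun n => f (w n)) N = LZ w N := by
  unfold LZ
  congr 1
  ext r
  exact parse_inj hf w N r

/-- numbers with a small Lempel-Ziv complexity of the digits -/
theorem lz_digits {b : ℕ} (hb : 2 ≤ b) {S : Set ℕ} {x K : ℝ}
    (h : ∀ M ∈ S, (LZ (digit b x) M : ℝ) ≤ K * (1 + Real.log M)) (G : Set ℝ)
    (hG : {x | LZNum S b x} ⊆ G) : x ∈ Algebra.adjoin ℚ G := by
  have : NeZero b := ⟨by omega⟩
  have e : digit b x = fun n => (((dz b x n).val : ℕ) : ℤ) := by
    funext n
    exact digit_eq hb x n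
  have hinj : Function.Injective fun a : ZMod b => ((a.val : ℕ) : ℤ) := by
    intro u v huv
    have huv' : ((u.val : ℕ) : ℤ) = ((v.val : ℕ) : ℤ) := huv
    exact ZMod.val_injective b (by exact_mod_cast huv')
  have h1 : x - ⌊x⌋ ∈ Algebra.adjoin ℚ G := by
    refine Algebra.subset_adjoin (hG ⟨ZMod b, inferInstance, fun a => (a.val : ℚ), dz b x, K,
      hasSum_dz hb x, fun M hM => ?_⟩)
    have h2 := h M hM
    rw [e] at h2
    rwa [lz_inj hinj] at h2
  have h2 : ((⌊x⌋ : ℤ) : ℝ) ∈ Algebra.adjoin ℚ G := by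
    have : ((⌊x⌋ : ℤ) : ℝ) = algebraMap ℚ ℝ (⌊x⌋ : ℚ) := by simp
    rw [this]
    exact Subalgebra.algebraMap_mem _ _
  have h3 := Subalgebra.add_mem _ h1 h2
  rwa [sub_add_cancel] at h3

/-- the theorem for algebraic sums -/
theorem lm_alg (hlm : S_LM) (S : Set ℕ) (hS : S.Infinite) (k : ℕ) (b : Fin k → ℕ)
    (hb : ∀ i, 2 ≤ b i) (hind : ∀ i j, i ≠ j → TwoB.Indep (b i) (b j)) (y α : Fin k → ℝ)
    (hy : ∀ i, y i ∈ Algebra.adjoin ℚ {x | LZNum S (b i) x ∨ UL (b i) x})
    (hα : ∀ i, IsAlgebraic ℚ (α i) ∧ α i ≠ 0)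
    (hsum : IsAlgebraic ℚ (∑ i, α i * y i)) (i : Fin k) : (∃ q : ℚ, y i = q) ∨ Liouville (y i) := by
  by_cases h0 : ∑ i, α i * y i = 0
  · exact hlm S hS k b hb hind y α hy hα h0 i
  · obtain ⟨p, hp1, hp⟩ := Nat.exists_infinite_primes (∑ i, b i + 1)
    have hbp : ∀ i, b i < p := fun i => by
      have := Finset.single_le_sum (f := b) (fun _ _ => Nat.zero_le _) (Finset.mem_univ i)
      omega
    have h3 := hlm S hS (k + 1) (Fin.cons p b) (by
        intro j
        refine Fin.cases ?_ (fun j => ?_) j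
        · exact hp.two_le
        · exact hb j) (by
        intro i
        refine Fin.cases ?_ (fun i => ?_) i
        · intro j
          refine Fin.cases ?_ (fun j => ?_) j
          · intro h; exact absurd rfl h
          · intro _
            rw [Fin.cons_zero, Fin.cons_succ]
            exact (indep_prime hp (hb j) (hbp j)).1
        · intro j
          refine Fin.cases ?_ (fun j => ?_) j
          · intro _
            rw [Fin.cons_zero, Fin.cons_succ]
            exact (indep_prime hp (hb i) (hbp i)).2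
          · intro hij
            rw [Fin.cons_succ, Fin.cons_succ]
            exact hind i j fun h => hij (by rw [h]))
      (Fin.cons 1 y) (Fin.cons (-∑ i, α i * y i) α) (by
        intro i
        refine Fin.cases ?_ (fun i => ?_) i
        · rw [Fin.cons_zero, Fin.cons_zero]
          exact Subalgebra.one_mem _
        · rw [Fin.cons_succ, Fin.cons_succ]
          exact hy i) (by
        intro i
        refine Fin.cases ?_ (fun i => ?_) i
        · rw [Fin.cons_zero]
          exact ⟨hsum.neg, neg_ne_zero.2 h0⟩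
        · rw [Fin.cons_succ]
          exact hα i) (by
        rw [Fin.sum_univ_succ]
        simp only [Fin.cons_zero, Fin.cons_succ]
        ring) i.succ
    rwa [Fin.cons_succ] at h3

/-- one number in two bases -/
theorem lz_two (hlm : S_LM) {S : Set ℕ} (hS : S.Infinite) {a b : ℕ} (ha : 2 ≤ a) (hb : 2 ≤ b)
    (hab : TwoB.Indep a b) {x : ℝ}
    (hx : x ∈ Algebra.adjoin ℚ {x | LZNum S a x ∨ UL a x})
    (hy : x ∈ Algebra.adjoin ℚ {x | LZNum S b x ∨ UL b x}) (hirr : Irrational x) :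
    Liouville x := by
  have h3 := lm_alg hlm S hS 2 ![a, b] (by
      intro i
      fin_cases i
      · exact ha
      · exact hb) (by
      intro i j hij
      fin_cases i <;> fin_cases j
      · exact absurd rfl hij
      · exact hab
      · exact fun k l h => (hab l k h.symm).symm
      · exact absurd rfl hij) ![x, x] ![1, -1] (by
      intro i
      fin_cases i
      · exact hx
      · exact hy) (by
      intro i
      fin_cases i
      · exact ⟨isAlgebraic_one, one_ne_zero⟩
      · exact ⟨isAlgebraic_one.neg, neg_ne_zero.2 one_ne_zero⟩) (by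
      simp only [Fin.sum_univ_two, Matrix.cons_val_zero, Matrix.cons_val_one]
      have : (1 : ℝ) * x + -1 * x = 0 := by ring
      rw [this]
      exact isAlgebraic_zero) 0
  rcases h3 with ⟨q, hq⟩ | h3
  · exact absurd ⟨q, hq.symm⟩ hirr
  · exact h3

/-- **Lempel-Ziv complexities in two bases.** -/
theorem lz_main (hlm : S_LM) {a b : ℕ} (ha : 2 ≤ a) (hb : 2 ≤ b) (hab : TwoB.Indep a b) {x : ℝ}
    (hirr : Irrational x) (hl : ¬ Liouville x) (K : ℝ) : ∃ N₀ : ℕ, ∀ N ≥ N₀,
      K * Real.log N < (LZ (digit a x) N : ℝ) + LZ (digit b x) N := by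
  by_contra hcon
  push Not at hcon
  set S : Set ℕ := {N | 1 ≤ N ∧ (LZ (digit a x) N : ℝ) + LZ (digit b x) N ≤ K * Real.log N} with hS
  have hinf : S.Infinite := by
    rw [Set.infinite_iff_exists_gt]
    intro n₀
    obtain ⟨n, h1, h2⟩ := hcon (n₀ + 1)
    exact ⟨n, ⟨by omega, h2⟩, by omega⟩
  have key : ∀ N ∈ S, (LZ (digit a x) N : ℝ) ≤ |K| * (1 + Real.log N) ∧
      (LZ (digit b x) N : ℝ) ≤ |K| * (1 + Real.log N) := by
    rintro N ⟨h1, h2⟩
    have h3 : 0 ≤ Real.log N := Real.log_nonneg (by exact_mod_cast h1)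
    have h4 : K * Real.log N ≤ |K| * (1 + Real.log N) := by
      have h5 := mul_le_mul_of_nonneg_right (le_abs_self K) h3
      have := abs_nonneg K
      linarith
    have h5 : (0 : ℝ) ≤ LZ (digit a x) N := Nat.cast_nonneg _
    have h6 : (0 : ℝ) ≤ LZ (digit b x) N := Nat.cast_nonneg _
    constructor <;> linarith
  refine hl (lz_two hlm hinf ha hb hab ?_ ?_ hirr)
  · exact lz_digits ha (fun M hM => (key M hM).1) _ fun x hx => Or.inl hx
  · exact lz_digits hb (fun M hM => (key M hM).2) _ fun x hx => Or.inl hx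

/-- one simple expansion -/
theorem lz_one (h1 : S_FRD) (h2 : S_LU) (hlm : S_LM) {a b : ℕ} (ha : 2 ≤ a) (hb : 2 ≤ b)
    (hab : TwoB.Indep a b) {x : ℝ} (hirr : Irrational x) (hl : ¬ Liouville x)
    (hx : x ∈ Algebra.adjoin ℚ (Cls a)) (K : ℝ) : ∃ N₀ : ℕ, ∀ N ≥ N₀,
      K * Real.log N < (LZ (digit b x) N : ℝ) := by
  by_contra hcon
  push Not at hcon
  set S : Set ℕ := {N | 1 ≤ N ∧ (LZ (digit b x) N : ℝ) ≤ K * Real.log N} with hS
  have hinf : S.Infinite := by
    rw [Set.infinite_iff_exists_gt]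
    intro n₀
    obtain ⟨n, h1, h2⟩ := hcon (n₀ + 1)
    exact ⟨n, ⟨by omega, h2⟩, by omega⟩
  refine hl (lz_two hlm hinf ha hb hab ?_ ?_ hirr)
  · exact Algebra.subset_adjoin (Or.inr (ul_adjoin (fun x hx => cls_ul h1 h2 ha hx) hx))
  · refine lz_digits hb (K := |K|) (fun N hN => ?_) _ fun x hx => Or.inl hx
    obtain ⟨g1, g2⟩ := hN
    have h3 : 0 ≤ Real.log N := Real.log_nonneg (by exact_mod_cast g1)
    have h5 := mul_le_mul_of_nonneg_right (le_abs_self K) h3
    have := abs_nonneg K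
    linarith

end Pool.Agent.L0h79.FR
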