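import Mathlib
import Pool.Agent.L0h79.FR.All1
import Pool.Agent.L0h79.FR.Evd
import Pool.Agent.L0h79.FR.LZFin
import Pool.Agent.L0h48.FR.LPE
import Pool.Agent.L0h65.FR.Ld
import Pool.Agent.L0h9.FR.LS
import Pool.Agent.L0h9.FR.LC
import Pool.Agent.TH796.AL.Alg5

set_option autoImplicit false
set_option linter.all false

/-!
# FR: assembly
-/

namespace Pool.Agent.L0h79.FR

theorem evd_thm : S_EVD := evd kpq
theorem ind_thm : S_IND := ind rel_thm
theorem dir_thm : S_DIR := Pool.Agent.L0h19.FR.dir kpq ind_thm tube_thm evd_thm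
theorem main_thm : S_MAIN := main dir_thm glue_thm
theorem mainl_thm : S_MAINL := mainl dir_thm glue_thm
theorem ls_thm : S_LS := Pool.Agent.L0h9.FR.ls Pool.Agent.L0h19.FR.shift_thm
theorem lc_thm : S_LC := Pool.Agent.L0h9.FR.lc Pool.Agent.L0h19.FR.shift_thm ls_thm
theorem ld_thm : S_LD := Pool.Agent.L0h65.FR.ld lc_thm
theorem lu_thm : S_LU := Pool.Agent.L0h65.FR.lu Pool.Agent.L0h48.FR.t_LE ld_thm
theorem lm_thm : S_LM := lm dir_thm Pool.Agent.L0h48.FR.t_LP ld_thm

end Pool.Agent.L0h79.FR
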